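import Pool.Agent.H994.QS.Stm

/-!
# Statement `S_big` of project QS (helper994), by helper196
-/

set_option autoImplicit false

open MeasureTheory ProbabilityTheory Filter Topology
open scoped unitInterval ENNReal

namespace Pool.Agent.H994.QS

open Pool.Agent.H181.GW

namespace Big

lemma TT_le (N k : ℕ) (hN : 2 ≤ N) : TT N k ≤ k := by
  unfold TT; split_ifs <;> omega

lemma TT_leN (N k : ℕ) (hN : 2 ≤ N) : TT N k ≤ N := by
  unfold TT; split_ifs <;> omega

lemma TT_ge (N k : ℕ) (hk : 2 ≤ k) : 2 ≤ TT N k := by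
  unfold TT; split_ifs <;> omega

lemma TT_meas (N : ℕ) : Measurable (TT N) := measurable_from_top

lemma GW_map (μ : Measure ℕ) [IsProbabilityMeasure μ] (N : ℕ) :
    (GWlaw μ).map (fun (Z : Env) u => TT N (Z u)) = GWlaw (μ.map (TT N)) := by
  unfold GWlaw
  exact Measure.infinitePi_map_pi (μ := fun _ : List ℕ => μ) (f := fun _ : List ℕ => TT N)
    (fun _ => TT_meas N)

lemma quenched_nonneg (Z : Env) (p : I) : 0 ≤ quenched Z p := measureReal_nonneg

lemma quenched_le_one (Z : Env) (p : I) : quenched Z p ≤ 1 := by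
  unfold quenched; exact measureReal_le_one

/-- Paley-Zygmund. -/
lemma PZ {Ω : Type} [MeasurableSpace Ω] (P : Measure Ω) [IsProbabilityMeasure P] (X : Ω → ℝ)
    (hX : Measurable X) (h0 : ∀ ω, 0 ≤ X ω) (h1 : ∀ ω, X ω ≤ 1) (a M : ℝ) (ha : 0 < a)
    (hM : 0 < M) (haX : ∫ ω, X ω ∂P = a) (hb : ∫ ω, (X ω) ^ 2 ∂P ≤ M * a ^ 2) :
    P.real {ω | X ω < a / 2} ≤ 1 - 1 / (4 * M) := by
  have hAm : MeasurableSet {ω | X ω < a / 2} := measurableSet_lt hX measurable_const
  have hcm : MeasurableSet {ω | X ω < a / 2}ᶜ := hAm.compl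
  have hXi : Integrable X P := by
    refine Integrable.mono' (integrable_const (1 : ℝ)) hX.aestronglyMeasurable
      (ae_of_all _ fun ω => ?_)
    rw [Real.norm_eq_abs, abs_of_nonneg (h0 ω)]
    exact h1 ω
  have hX2i : Integrable (fun ω => (X ω) ^ 2) P := by
    refine Integrable.mono' (integrable_const (1 : ℝ)) (hX.pow_const 2).aestronglyMeasurable
      (ae_of_all _ fun ω => ?_)
    rw [Real.norm_eq_abs, abs_of_nonneg (pow_nonneg (h0 ω) 2)]
    exact pow_le_one₀ (h0 ω) (h1 ω)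
  set t : ℝ := 1 / (2 * M * a) with ht
  have htpos : 0 < t := by positivity
  have hpt : ∀ ω, X ω ≤ a / 2 + ((t / 2) * (X ω) ^ 2 +
      (1 / (2 * t)) * ({ω | X ω < a / 2}ᶜ).indicator (fun _ => (1 : ℝ)) ω) := by
    intro ω
    by_cases h : X ω < a / 2
    · have h2 : ω ∉ {ω | X ω < a / 2}ᶜ := fun h3 => h3 h
      rw [Set.indicator_of_notMem h2]
      have h3 : 0 ≤ (t / 2) * (X ω) ^ 2 := by positivity
      linarith
    · have h2 : ω ∈ {ω | X ω < a / 2}ᶜ := h
      rw [Set.indicator_of_mem h2, mul_one]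
      have h3 : X ω ≤ (t / 2) * (X ω) ^ 2 + 1 / (2 * t) := by
        have h4 : (t / 2) * (X ω) ^ 2 + 1 / (2 * t) - X ω = (t * X ω - 1) ^ 2 / (2 * t) := by
          field_simp
          ring
        have h5 : 0 ≤ (t * X ω - 1) ^ 2 / (2 * t) := by positivity
        linarith
      linarith
  have hint : ∫ ω, X ω ∂P ≤ a / 2 + ((t / 2) * ∫ ω, (X ω) ^ 2 ∂P +
      (1 / (2 * t)) * P.real ({ω | X ω < a / 2}ᶜ)) := by
    have hind : Integrable (({ω | X ω < a / 2}ᶜ).indicator (fun _ => (1 : ℝ))) P :=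
      (integrable_const (1 : ℝ)).indicator hcm
    have h2 := integral_mono (μ := P) hXi
      (((integrable_const (a / 2)).add ((hX2i.const_mul (t / 2)).add
        (hind.const_mul (1 / (2 * t)))))) hpt
    refine le_trans h2 (le_of_eq ?_)
    rw [integral_add' (integrable_const _) ((hX2i.const_mul (t / 2)).add
        (hind.const_mul (1 / (2 * t)))), integral_add' (hX2i.const_mul (t / 2))
        (hind.const_mul (1 / (2 * t))), integral_const, probReal_univ, one_smul,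
        integral_const_mul, integral_const_mul, integral_indicator_const _ hcm, smul_eq_mul,
        mul_one]
  rw [haX] at hint
  have hcompl : P.real ({ω | X ω < a / 2}ᶜ) = 1 - P.real {ω | X ω < a / 2} :=
    probReal_compl_eq_one_sub hAm
  rw [hcompl] at hint
  set q : ℝ := P.real {ω | X ω < a / 2} with hq
  have h3 : (t / 2) * ∫ ω, (X ω) ^ 2 ∂P ≤ (t / 2) * (M * a ^ 2) :=
    mul_le_mul_of_nonneg_left hb (by positivity)
  have h4 : (t / 2) * (M * a ^ 2) = a / 4 := by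
    rw [ht]; field_simp; ring
  have h5 : a / 4 ≤ (1 / (2 * t)) * (1 - q) := by linarith
  have h6 : 1 / (2 * t) = M * a := by
    rw [ht]; field_simp
  rw [h6] at h5
  have h7 : 1 / (4 * M) ≤ 1 - q := by
    rw [div_le_iff₀ (by positivity)]
    nlinarith
  linarith

lemma iter (hp : S_prop) (ν : Measure ℕ) [IsProbabilityMeasure ν] (h2 : ∀ᵐ k ∂ν, 2 ≤ k)
    (p : I) (s : ℝ) (n : ℕ) :
    GWlaw ν {Z | quenched Z p < (p : ℝ) ^ n * s} ≤
      (GWlaw ν {Z | quenched Z p < s}) ^ (2 ^ n) := by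
  induction n with
  | zero => simp
  | succ n ih =>
    have h3 := hp ν h2 p ((p : ℝ) ^ n * s)
    have h4 : (p : ℝ) ^ (n + 1) * s = p * ((p : ℝ) ^ n * s) := by ring
    rw [h4]
    refine le_trans h3 (le_trans (pow_le_pow_left' ih 2) (le_of_eq ?_))
    rw [← pow_mul, pow_succ 2 n]

lemma NN_big (j : ℕ) : 2 ^ 32 ≤ NN j := by
  unfold NN
  apply Nat.pow_le_pow_right (by norm_num)
  calc 32 = 32 ^ 1 := by norm_num
    _ ≤ 32 ^ (j + 1) := Nat.pow_le_pow_right (by norm_num) (by omega)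

lemma NN_ge (j : ℕ) : 8 * j ≤ NN j := by
  unfold NN
  have h1 : 32 ^ (j + 1) < 2 ^ (32 ^ (j + 1)) := Nat.lt_two_pow_self
  have h2 : j < 32 ^ j := Nat.lt_pow_self (by norm_num)
  have h3 : 32 ^ (j + 1) = 32 * 32 ^ j := by ring
  omega

lemma mm_mem (j : ℕ) : 5 / 2 ≤ mm j ∧ mm j < 3 := by
  unfold mm
  have h1 : (0 : ℝ) < (1 / 2) ^ (j + 1) := by positivity
  have h2 : ((1 : ℝ) / 2) ^ (j + 1) ≤ 1 / 2 := by
    calc ((1 : ℝ) / 2) ^ (j + 1) ≤ (1 / 2) ^ 1 :=
        pow_le_pow_of_le_one (by norm_num) (by norm_num) (by omega)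
      _ = 1 / 2 := by norm_num
  constructor <;> linarith

lemma exp_final (j : ℕ) : (1 - 1 / (4 * (2 * (NN j : ℝ)))) ^ ((NN j) ^ 2) ≤ (1 / 2 : ℝ) ^ j := by
  have hN : (2 : ℝ) ^ 32 ≤ (NN j : ℝ) := by exact_mod_cast NN_big j
  have hNpos : (0 : ℝ) < (NN j : ℝ) := lt_of_lt_of_le (by norm_num) hN
  have h0 : 0 ≤ 1 - 1 / (4 * (2 * (NN j : ℝ))) := by
    have : 1 / (4 * (2 * (NN j : ℝ))) ≤ 1 := by
      rw [div_le_one (by positivity)]
      linarith
    linarith
  have h1 : 1 - 1 / (4 * (2 * (NN j : ℝ))) ≤ Real.exp (-(1 / (4 * (2 * (NN j : ℝ))))) :=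
    Real.one_sub_le_exp_neg _
  have h2 := pow_le_pow_left₀ h0 h1 ((NN j) ^ 2)
  refine le_trans h2 ?_
  rw [← Real.exp_nat_mul]
  have h3 : ((NN j ^ 2 : ℕ) : ℝ) * (-(1 / (4 * (2 * (NN j : ℝ))))) = -((NN j : ℝ) / 8) := by
    push_cast
    field_simp
    ring
  rw [h3]
  have h4 : (j : ℝ) ≤ (NN j : ℝ) / 8 := by
    have h5 : ((8 * j : ℕ) : ℝ) ≤ (NN j : ℝ) := by exact_mod_cast NN_ge j
    push_cast at h5
    linarith
  have h5 : Real.exp (-((NN j : ℝ) / 8)) ≤ Real.exp (-(j : ℝ)) :=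
    Real.exp_le_exp.2 (by linarith)
  refine le_trans h5 ?_
  have h6 : Real.exp (-(j : ℝ)) = (Real.exp (-1)) ^ j := by
    rw [← Real.exp_nat_mul]; congr 1; ring
  rw [h6]
  apply pow_le_pow_left₀ (Real.exp_pos _).le
  rw [Real.exp_neg, inv_eq_one_div]
  apply one_div_le_one_div_of_le (by norm_num)
  have := Real.add_one_le_exp (1 : ℝ)
  linarith

end Big

open Big in
theorem t_big (hfix : S_fix) (hm : S_meas) (hZ : S_monoZ) (hs : S_second) (hp : S_prop)
    (hl : S_lower) : S_big := by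
  intro μ hμ j p hpeq
  have := hμ.prob
  have hNbig : 2 ^ 32 ≤ NN j := NN_big j
  have hN2 : 2 ≤ NN j := le_trans (by norm_num) hNbig
  have hNr : (2 : ℝ) ^ 32 ≤ (NN j : ℝ) := by exact_mod_cast hNbig
  have hNpos : (0 : ℝ) < (NN j : ℝ) := lt_of_lt_of_le (by norm_num) hNr
  obtain ⟨hm1, hm2⟩ := mm_mem j
  have hmpos : 0 < mm j := by linarith
  have hv : vv j = 1 / (NN j : ℝ) ^ 5 := rfl
  have hvpos : 0 < vv j := by rw [hv]; positivity
  have hvle : vv j ≤ 1 / 1000 := by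
    rw [hv]
    apply one_div_le_one_div_of_le (by norm_num)
    calc (1000 : ℝ) ≤ 2 ^ 32 := by norm_num
      _ ≤ (NN j : ℝ) := hNr
      _ = (NN j : ℝ) ^ 1 := by ring
      _ ≤ (NN j : ℝ) ^ 5 := pow_le_pow_right₀ (by linarith) (by norm_num)
  have hv2 : (vv j) ^ 2 ≤ 1 / 1000 := by nlinarith
  have hp0 : (0 : ℝ) ≤ p := p.2.1
  have hp1 : (p : ℝ) ≤ 41 / 100 := by
    rw [hpeq]
    have : 1 / mm j ≤ 1 / (5 / 2) := one_div_le_one_div_of_le (by norm_num) hm1
    norm_num at this ⊢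
    linarith
  have hp2 : 1 / 4 ≤ (p : ℝ) := by
    rw [hpeq]
    have h1 : 1 / 3 ≤ 1 / mm j := one_div_le_one_div_of_le hmpos hm2.le
    have h2 : 0 ≤ (vv j) ^ 2 := by positivity
    norm_num at h1 ⊢
    linarith
  have hpm : (p : ℝ) * mm j = 1 + mm j * (vv j) ^ 2 := by
    rw [hpeq]; field_simp
  have hνp : IsProbabilityMeasure (μ.map (TT (NN j))) :=
    Measure.isProbabilityMeasure_map (TT_meas (NN j)).aemeasurable
  have hν1 : ∀ᵐ k ∂(μ.map (TT (NN j))), k ≤ NN j := by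
    rw [ae_map_iff (TT_meas (NN j)).aemeasurable (MeasurableSet.of_discrete)]
    exact ae_of_all _ fun k => TT_leN (NN j) k hN2
  have hν2 : ∀ᵐ k ∂(μ.map (TT (NN j))), 2 ≤ k := by
    rw [ae_map_iff (TT_meas (NN j)).aemeasurable (MeasurableSet.of_discrete)]
    exact hμ.two_le.mono fun k hk => TT_ge (NN j) k hk
  have hνm : ∫ k, (k : ℝ) ∂(μ.map (TT (NN j))) = mm j := by
    rw [integral_map (TT_meas (NN j)).aemeasurable
      (Measurable.of_discrete).aestronglyMeasurable]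
    exact hμ.trunc j
  have hνi : Integrable (fun k : ℕ => (k : ℝ)) (μ.map (TT (NN j))) := by
    refine Integrable.mono' (integrable_const (NN j : ℝ))
      (Measurable.of_discrete).aestronglyMeasurable ?_
    filter_upwards [hν1] with k hk
    rw [Real.norm_eq_abs, abs_of_nonneg (Nat.cast_nonneg k)]
    exact_mod_cast hk
  have hνi2 : Integrable (fun k : ℕ => (k : ℝ) * ((k : ℝ) - 1)) (μ.map (TT (NN j))) := by
    refine Integrable.mono' (integrable_const ((NN j : ℝ) * (NN j : ℝ)))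
      (Measurable.of_discrete).aestronglyMeasurable ?_
    filter_upwards [hν1, hν2] with k hk hk2
    have h1 : (k : ℝ) ≤ (NN j : ℝ) := by exact_mod_cast hk
    have h2 : (2 : ℝ) ≤ (k : ℝ) := by exact_mod_cast hk2
    rw [Real.norm_eq_abs, abs_of_nonneg (by nlinarith)]
    nlinarith
  have hνb : ∫ k, ((k : ℝ) * ((k : ℝ) - 1)) ∂(μ.map (TT (NN j))) ≤ 3 * (NN j : ℝ) := by
    calc ∫ k, ((k : ℝ) * ((k : ℝ) - 1)) ∂(μ.map (TT (NN j)))
        ≤ ∫ k, ((NN j : ℝ) * (k : ℝ)) ∂(μ.map (TT (NN j))) := by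
          apply integral_mono_ae hνi2 (hνi.const_mul _)
          filter_upwards [hν1, hν2] with k hk hk2
          have h1 : (k : ℝ) ≤ (NN j : ℝ) := by exact_mod_cast hk
          have h2 : (2 : ℝ) ≤ (k : ℝ) := by exact_mod_cast hk2
          nlinarith
      _ = (NN j : ℝ) * mm j := by rw [integral_const_mul, hνm]
      _ ≤ 3 * (NN j : ℝ) := by nlinarith
  -- the annealed lower bound
  have ha : 2 * (vv j) ^ 2 / (NN j : ℝ) ≤ annealed (μ.map (TT (NN j))) p := by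
    apply hl (μ.map (TT (NN j))) (NN j) hν1 p
    · positivity
    · rw [div_le_one hNpos]; linarith
    · rw [hνm, hpm]
      have h1 : (p : ℝ) ^ 2 * (2 * vv j ^ 2 / (NN j : ℝ)) * ((NN j : ℝ) * mm j) / 2 =
          (p : ℝ) ^ 2 * (mm j * (vv j) ^ 2) := by
        field_simp
      rw [h1]
      have h2 : (p : ℝ) ^ 2 ≤ 1 := by nlinarith
      have h3 : 0 ≤ mm j * (vv j) ^ 2 := by positivity
      nlinarith
  have hapos : 0 < annealed (μ.map (TT (NN j))) p :=
    lt_of_lt_of_le (by positivity) ha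
  -- second moment
  have hb : ∫ Z, (quenched Z p) ^ 2 ∂(GWlaw (μ.map (TT (NN j)))) ≤
      2 * (NN j : ℝ) * (annealed (μ.map (TT (NN j))) p) ^ 2 := by
    have h1 : (p : ℝ) ^ 2 * ∫ k, (k : ℝ) ∂(μ.map (TT (NN j))) ≤ 1 / 2 := by
      rw [hνm]
      have h2 : (p : ℝ) ^ 2 * mm j = p * (1 + mm j * (vv j) ^ 2) := by
        rw [← hpm]; ring
      rw [h2]
      have h3 : mm j * (vv j) ^ 2 ≤ 3 / 1000 := by nlinarith [sq_nonneg (vv j)]
      nlinarith
    refine le_trans (hs (μ.map (TT (NN j))) (NN j) hν1 p h1) ?_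
    apply mul_le_mul_of_nonneg_right _ (sq_nonneg _)
    have h4 : 2 * (p : ℝ) ^ 2 ≤ 2 / 3 := by nlinarith
    have h5 : 0 ≤ 2 * (p : ℝ) ^ 2 := by positivity
    calc 2 * (p : ℝ) ^ 2 * ∫ k, ((k : ℝ) * ((k : ℝ) - 1)) ∂(μ.map (TT (NN j)))
        ≤ 2 * (p : ℝ) ^ 2 * (3 * (NN j : ℝ)) := mul_le_mul_of_nonneg_left hνb h5
      _ ≤ 2 / 3 * (3 * (NN j : ℝ)) := mul_le_mul_of_nonneg_right h4 (by positivity)
      _ = 2 * (NN j : ℝ) := by ring
  have hPZ := PZ (GWlaw (μ.map (TT (NN j)))) (fun Z => quenched Z p) (hm p)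
    (fun Z => quenched_nonneg Z p) (fun Z => quenched_le_one Z p)
    (annealed (μ.map (TT (NN j))) p) (2 * (NN j : ℝ)) hapos (by positivity) rfl hb
  -- iteration
  have hit := iter hp (μ.map (TT (NN j))) hν2 p (annealed (μ.map (TT (NN j))) p / 2)
    (2 * 32 ^ (j + 1))
  have hpow : 2 ^ (2 * 32 ^ (j + 1)) = (NN j) ^ 2 := by
    unfold NN; rw [← pow_mul]; congr 1; ring
  rw [hpow] at hit
  have hthr : (vv j) ^ 3 ≤
      (p : ℝ) ^ (2 * 32 ^ (j + 1)) * (annealed (μ.map (TT (NN j))) p / 2) := by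
    have h1 : (1 / 4 : ℝ) ^ (2 * 32 ^ (j + 1)) = 1 / (NN j : ℝ) ^ 4 := by
      have h2 : (NN j : ℝ) ^ 4 = (4 : ℝ) ^ (2 * 32 ^ (j + 1)) := by
        unfold NN
        push_cast
        rw [show (4 : ℝ) = 2 ^ 2 by norm_num, ← pow_mul, ← pow_mul]
        congr 1
        ring
      rw [h2, one_div_pow]
    have h3 : 1 / (NN j : ℝ) ^ 4 ≤ (p : ℝ) ^ (2 * 32 ^ (j + 1)) := by
      rw [← h1]; exact pow_le_pow_left₀ (by norm_num) hp2 _
    have h4 : (vv j) ^ 2 / (NN j : ℝ) ≤ annealed (μ.map (TT (NN j))) p / 2 := by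
      have : 2 * (vv j) ^ 2 / (NN j : ℝ) = 2 * ((vv j) ^ 2 / (NN j : ℝ)) := by ring
      linarith
    have h5 : (vv j) ^ 3 = 1 / (NN j : ℝ) ^ 4 * ((vv j) ^ 2 / (NN j : ℝ)) := by
      rw [hv]; field_simp
    rw [h5]
    exact mul_le_mul h3 h4 (by positivity) (by positivity)
  have hreal : (GWlaw (μ.map (TT (NN j)))).real {Z | quenched Z p < (vv j) ^ 3} ≤
      (1 / 2 : ℝ) ^ j := by
    have h1 : (GWlaw (μ.map (TT (NN j)))).real {Z | quenched Z p < (vv j) ^ 3} ≤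
        ((GWlaw (μ.map (TT (NN j)))).real
          {Z | quenched Z p < annealed (μ.map (TT (NN j))) p / 2}) ^ ((NN j) ^ 2) := by
      rw [measureReal_def, measureReal_def, ← ENNReal.toReal_pow]
      apply ENNReal.toReal_mono (ENNReal.pow_ne_top (measure_ne_top _ _))
      refine le_trans (measure_mono ?_) hit
      intro Z hZ'
      exact lt_of_lt_of_le hZ' hthr
    refine le_trans h1 (le_trans ?_ (exp_final j))
    exact pow_le_pow_left₀ measureReal_nonneg hPZ _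
  refine le_trans ?_ hreal
  rw [← GW_map μ (NN j)]
  have hTm : Measurable (fun (Z : Env) u => TT (NN j) (Z u)) :=
    measurable_pi_lambda _ fun u => (TT_meas (NN j)).comp (measurable_pi_apply u)
  have hSm : MeasurableSet {Z : Env | quenched Z p < (vv j) ^ 3} :=
    measurableSet_lt (hm p) measurable_const
  rw [measureReal_def, measureReal_def, Measure.map_apply hTm hSm]
  apply ENNReal.toReal_mono (measure_ne_top _ _)
  apply measure_mono
  intro Z hZ'
  exact lt_of_le_of_lt (hZ Z _ (fun u => TT_le (NN j) (Z u) hN2) p) hZ'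

end Pool.Agent.H994.QS
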