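import Pool.Agent.H994.QS.Stm

/-!
# The quenched survival function of a Galton-Watson tree (MP_97806e_pr, Q2): assembly
-/

set_option autoImplicit false

open MeasureTheory ProbabilityTheory Filter Topology Asymptotics
open scoped unitInterval ENNReal

namespace Pool.Agent.H994.QS

open Pool.Agent.H181.GW

/-- The quenched survival function of the environment `Z`, extended by constants outside
`[0, 1]`. -/
noncomputable def qsurv (Z : Env) (x : ℝ) : ℝ := quenched Z (Set.projIcc 0 1 zero_le_one x)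

/-- `f` has an order-`k` expansion at `c⁺`. -/
def HasExpansion (f : ℝ → ℝ) (c : ℝ) (k : ℕ) : Prop :=
  ∃ a : ℕ → ℝ, (fun ε : ℝ => f (c + ε) - ∑ j ∈ Finset.range (k + 1), a j * ε ^ j)
    =o[𝓝[>] 0] fun ε : ℝ => ε ^ k

/-- `f` is of class `C^k` at `c⁺`. -/
def ClassC (f : ℝ → ℝ) (c : ℝ) (k : ℕ) : Prop :=
  ∃ δ : ℝ, 0 < δ ∧ ContDiffOn ℝ k f (Set.Ico c (c + δ))

namespace Fin

lemma half_pow_pos (j : ℕ) : (0 : ℝ) < (1 / 2) ^ (j + 1) := by positivity

lemma half_pow_le (j : ℕ) : ((1 : ℝ) / 2) ^ (j + 1) ≤ 1 / 2 := by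
  rw [pow_succ]
  have : ((1 : ℝ) / 2) ^ j ≤ 1 := pow_le_one₀ (by norm_num) (by norm_num)
  linarith

lemma mm_ge (j : ℕ) : 5 / 2 ≤ mm j := by unfold mm; linarith [half_pow_le j]

lemma mm_lt (j : ℕ) : mm j < 3 := by unfold mm; linarith [half_pow_pos j]

lemma NN_ge (j : ℕ) : (2 : ℝ) ^ (j + 5) ≤ NN j := by
  unfold NN
  push_cast
  apply pow_le_pow_right₀ (by norm_num)
  have h : ∀ j : ℕ, j + 5 ≤ 32 ^ (j + 1) := by
    intro j
    induction j with
    | zero => norm_num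
    | succ j ih => rw [pow_succ]; omega
  exact h j

lemma NN_pos (j : ℕ) : (0 : ℝ) < NN j := lt_of_lt_of_le (by positivity) (NN_ge j)

lemma vv_pos (j : ℕ) : 0 < vv j := by unfold vv; have := NN_pos j; positivity

lemma vv_le (j : ℕ) : vv j ≤ 1 / 2 ^ (j + 5) := by
  unfold vv
  apply one_div_le_one_div_of_le (by positivity)
  have h1 : (1 : ℝ) ≤ NN j := le_trans (one_le_pow₀ (by norm_num)) (NN_ge j)
  calc (2 : ℝ) ^ (j + 5) ≤ NN j := NN_ge j
    _ = (NN j : ℝ) ^ 1 := (pow_one _).symm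
    _ ≤ (NN j : ℝ) ^ 5 := pow_le_pow_right₀ h1 (by norm_num)

lemma vv_sq (j : ℕ) : vv j ^ 2 < 1 / mm j - 1 / 3 := by
  have h0 := vv_pos j
  have h1 := vv_le j
  have h2 : vv j ^ 2 ≤ (1 / 2 ^ (j + 5)) * (1 / 2 ^ 5) := by
    rw [sq]
    apply mul_le_mul h1 _ h0.le (by positivity)
    refine h1.trans ?_
    apply one_div_le_one_div_of_le (by norm_num)
    exact pow_le_pow_right₀ (by norm_num) (by omega)
  have h3 := mm_ge j
  have h4 := mm_lt j
  have h5 : 1 / mm j - 1 / 3 = (1 / 2) ^ (j + 1) / (3 * mm j) := by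
    have : mm j ≠ 0 := by linarith
    field_simp
    unfold mm
    ring
  rw [h5]
  have h6 : ((1 : ℝ) / 2) ^ (j + 1) / 9 ≤ (1 / 2) ^ (j + 1) / (3 * mm j) := by
    apply div_le_div_of_nonneg_left (half_pow_pos j).le (by linarith) (by linarith)
  refine lt_of_lt_of_le (lt_of_le_of_lt h2 ?_) h6
  have h7 : (1 : ℝ) / 2 ^ (j + 5) = (1 / 2) ^ (j + 1) / 16 := by
    rw [one_div_pow, show j + 5 = (j + 1) + 4 by ring, pow_add]
    norm_num
    ring
  rw [h7]
  have := half_pow_pos j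
  nlinarith

lemma inv_mem (j : ℕ) : 1 / mm j ∈ Set.Icc (0 : ℝ) 1 := by
  have h3 := mm_ge j
  constructor
  · positivity
  · rw [div_le_one (by linarith)]; linarith

lemma inv_le (j : ℕ) : 1 / mm j ≤ 2 / 5 := by
  have h3 := mm_ge j
  rw [div_le_div_iff₀ (by linarith) (by norm_num)]
  linarith

lemma inv2_mem (j : ℕ) : 1 / mm j + vv j ^ 2 ∈ Set.Icc (0 : ℝ) 1 := by
  have h := inv_le j
  have h1 := vv_sq j
  have h2 := (inv_mem j).1
  constructor
  · positivity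
  · linarith

lemma mm_tendsto : Tendsto (fun j => 1 / mm j) atTop (𝓝 (1 / 3)) := by
  have h : Tendsto (fun j : ℕ => ((1 : ℝ) / 2) ^ (j + 1)) atTop (𝓝 0) :=
    (tendsto_pow_atTop_nhds_zero_of_lt_one (by norm_num) (by norm_num)).comp
      (tendsto_add_atTop_nat 1)
  have h1 : Tendsto mm atTop (𝓝 (3 - 0)) := h.const_sub 3
  rw [sub_zero] at h1
  exact Tendsto.div tendsto_const_nhds h1 (by norm_num)

lemma vv_tendsto : Tendsto vv atTop (𝓝 0) := by
  apply squeeze_zero (fun j => (vv_pos j).le) (g := fun j : ℕ => ((1 : ℝ) / 2) ^ j)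
  · intro j
    refine (vv_le j).trans ?_
    rw [one_div_pow]
    apply one_div_le_one_div_of_le (by positivity)
    exact pow_le_pow_right₀ (by norm_num) (by omega)
  · exact tendsto_pow_atTop_nhds_zero_of_lt_one (by norm_num) (by norm_num)

lemma quenched_nonneg (Z : Env) (p : I) : 0 ≤ quenched Z p := by
  unfold quenched
  exact measureReal_nonneg

lemma qsurv_of_mem (Z : Env) {x : ℝ} (hx : x ∈ Set.Icc (0 : ℝ) 1) :
    qsurv Z x = quenched Z ⟨x, hx⟩ := by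
  unfold qsurv
  rw [Set.projIcc_of_mem zero_le_one hx]

lemma bc {μ : Measure ℕ} [IsProbabilityMeasure μ] {s : ℕ → Set Env}
    (h : ∀ j, (GWlaw μ).real (s j) ≤ (1 / 2) ^ j) :
    ∀ᵐ Z ∂(GWlaw μ), ∀ᶠ j in atTop, Z ∉ s j := by
  apply ae_eventually_notMem
  have h1 : ∀ j, GWlaw μ (s j) ≤ ENNReal.ofReal ((1 / 2) ^ j) := by
    intro j
    rw [← ofReal_measureReal (measure_ne_top _ _)]
    exact ENNReal.ofReal_le_ofReal (h j)
  refine ne_top_of_le_ne_top ?_ (ENNReal.tsum_le_tsum h1)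
  exact summable_geometric_two.tsum_ofReal_ne_top

end Fin

open Pool.Agent.H994.QS.Fin

theorem main (hmono : S_monop) (hlaw : S_law) (hbig : S_big) (hsmall : S_small)
    (hnot : S_notC2) (hflat : S_flat) :
    ∃ (μ : Measure ℕ) (_ : IsProbabilityMeasure μ),
      Integrable (fun n : ℕ => (n : ℝ)) μ ∧ 1 < ∫ n, (n : ℝ) ∂μ ∧
      ∀ᵐ Z ∂(GWlaw μ),
        (∀ k : ℕ, HasExpansion (qsurv Z) (1 / ∫ n, (n : ℝ) ∂μ) k) ∧
        ¬ ClassC (qsurv Z) (1 / ∫ n, (n : ℝ) ∂μ) 2 := by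
  obtain ⟨μ, h⟩ := hlaw
  have := h.prob
  refine ⟨μ, h.prob, h.int, by rw [h.mean]; norm_num, ?_⟩
  rw [h.mean]
  have hb := bc (μ := μ) (s := fun j => {Z | quenched Z ⟨_, inv2_mem j⟩ < vv j ^ 3})
    fun j => hbig μ h j _ rfl
  have hs := bc (μ := μ) (s := fun j => {Z | vv j ^ 3 / 4 < quenched Z ⟨_, inv_mem j⟩})
    fun j => hsmall μ h j _ rfl
  filter_upwards [hb, hs] with Z hbZ hsZ
  have hf0 : ∀ y, 0 ≤ qsurv Z y := fun y => quenched_nonneg Z _
  have hfm : Monotone (qsurv Z) := by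
    intro x y hxy
    exact hmono Z _ _ (Set.monotone_projIcc _ hxy)
  have he : ∀ᶠ j in atTop, qsurv Z (1 / mm j) ≤ vv j ^ 3 / 4 := by
    filter_upwards [hsZ] with j hj
    rw [qsurv_of_mem Z (inv_mem j)]
    simpa using hj
  have he2 : ∀ᶠ j in atTop, vv j ^ 3 ≤ qsurv Z (1 / mm j + vv j ^ 2) := by
    filter_upwards [hbZ] with j hj
    rw [qsurv_of_mem Z (inv2_mem j)]
    simpa using hj
  refine ⟨fun k => ⟨fun _ => 0, ?_⟩, ?_⟩
  · simpa using hflat (qsurv Z) hf0 hfm he k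
  · rintro ⟨δ, hδ, hc⟩
    refine hnot (qsurv Z) (fun j => 1 / mm j) vv hf0 vv_pos (fun j => ?_) mm_tendsto vv_tendsto
      (he.and he2) δ hδ (by exact_mod_cast hc)
    have := vv_sq j
    linarith

end Pool.Agent.H994.QS
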