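import Pool.Agent.H994.QS.Stm

/-!
# The fixed point equation and the measurability of the quenched survival function
-/

set_option autoImplicit false

open MeasureTheory ProbabilityTheory Filter Topology Asymptotics
open scoped unitInterval ENNReal

namespace Pool.Agent.H994.QS

open Pool.Agent.H181.GW

namespace Fix

/-- extinction probability before generation `n`, as a real number -/
noncomputable def qr (p : I) (n : ℕ) (Z : Env) : ℝ := (qe p n Z).toReal

lemma qe_ne_top (p : I) (n : ℕ) (Z : Env) : qe p n Z ≠ ⊤ :=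
  ne_top_of_le_ne_top ENNReal.one_ne_top (qe_le_one p n Z)

lemma qr_tendsto (p : I) (Z : Env) :
    Tendsto (fun n => qr p n Z) atTop (𝓝 (1 - quenched Z p)) := by
  rw [quenched_eq]
  have h1 : Tendsto (fun n => qe p n Z) atTop (𝓝 (⨆ n, qe p n Z)) :=
    tendsto_atTop_iSup (qe_mono p Z)
  have hne : (⨆ n, qe p n Z) ≠ ⊤ :=
    ne_top_of_le_ne_top ENNReal.one_ne_top (iSup_le fun n => qe_le_one p n Z)
  have h2 := (ENNReal.tendsto_toReal hne).comp h1
  have : 1 - (1 - (⨆ n, qe p n Z).toReal) = (⨆ n, qe p n Z).toReal := by ring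
  rw [this]
  exact h2

lemma c0_real (p : I) : (c0 p).toReal = 1 - (p : ℝ) := rfl

lemma c1_real (p : I) : (c1 p).toReal = (p : ℝ) := rfl

lemma qr_succ (p : I) (n : ℕ) (Z : Env) :
    qr p (n + 1) Z = ∏ i ∈ Finset.range (Z []), (1 - (p : ℝ) + p * qr p n (sub Z i)) := by
  unfold qr
  rw [qe_succ, ENNReal.toReal_prod]
  refine Finset.prod_congr rfl fun i _ => ?_
  have h0 : c0 p ≠ ⊤ := ENNReal.coe_ne_top
  have h1 : c1 p ≠ ⊤ := ENNReal.coe_ne_top
  rw [ENNReal.toReal_add h0 (ENNReal.mul_ne_top h1 (qe_ne_top p n _)), ENNReal.toReal_mul,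
    c0_real, c1_real]

end Fix

theorem t_fix : S_fix := by
  intro Z p
  have h1 : Tendsto (fun n => Fix.qr p (n + 1) Z) atTop (𝓝 (1 - quenched Z p)) :=
    (Fix.qr_tendsto p Z).comp (tendsto_add_atTop_nat 1)
  have h2 : Tendsto (fun n => Fix.qr p (n + 1) Z) atTop
      (𝓝 (∏ i ∈ Finset.range (Z []), (1 - (p : ℝ) + p * (1 - quenched (sub Z i) p)))) := by
    have h3 : (fun n => Fix.qr p (n + 1) Z) = fun n => ∏ i ∈ Finset.range (Z []),
        (1 - (p : ℝ) + p * Fix.qr p n (sub Z i)) := funext fun n => Fix.qr_succ p n Z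
    rw [h3]
    refine tendsto_finsetProd _ fun i _ => ?_
    exact ((Fix.qr_tendsto p (sub Z i)).const_mul _).const_add _
  have h4 := tendsto_nhds_unique h1 h2
  have h5 : ∏ i ∈ Finset.range (Z []), (1 - (p : ℝ) + p * (1 - quenched (sub Z i) p)) =
      ∏ i ∈ Finset.range (Z []), (1 - (p : ℝ) * quenched (sub Z i) p) :=
    Finset.prod_congr rfl fun i _ => by ring
  rw [h5] at h4
  linarith

theorem t_meas : S_meas := by
  intro p
  have h1 : (fun Z : Env => quenched Z p) = fun Z => 1 - (⨆ n, qe p n Z).toReal :=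
    funext fun Z => quenched_eq p Z
  rw [h1]
  have hm : Measurable fun Z => ⨆ n, qe p n Z := Measurable.iSup fun n => measurable_qe p n
  exact measurable_const.sub hm.ennreal_toReal

end Pool.Agent.H994.QS
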