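import Pool.Agent.H994.QS.Stm

/-!
# Infinite order vanishing at `1 / 3`
-/

set_option autoImplicit false

open MeasureTheory ProbabilityTheory Filter Topology Asymptotics
open scoped unitInterval ENNReal

namespace Pool.Agent.H994.QS

namespace Fla

lemma pow8 (j : ℕ) : j + 6 ≤ 8 ^ (j + 1) := by
  induction j with
  | zero => norm_num
  | succ j ih =>
    rw [pow_succ]
    omega

lemma pow4 (j : ℕ) : j + 1 ≤ 4 ^ (j + 1) := by
  induction j with
  | zero => norm_num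
  | succ j ih =>
    rw [pow_succ]
    omega

lemma big {j k : ℕ} (h : k ≤ j) : (j + 6) * (k + 1) ≤ 15 * 32 ^ (j + 1) + 2 := by
  have h1 : (32 : ℕ) ^ (j + 1) = 8 ^ (j + 1) * 4 ^ (j + 1) := by
    rw [← mul_pow]
    norm_num
  have h2 := Nat.mul_le_mul (pow8 j) ((Nat.add_le_add_right h 1).trans (pow4 j))
  rw [← h1] at h2
  linarith [Nat.zero_le (32 ^ (j + 1))]

lemma vv_eq (j : ℕ) : vv j ^ 3 / 4 = (1 / 2 : ℝ) ^ (15 * 32 ^ (j + 1) + 2) := by
  unfold vv NN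
  push_cast
  generalize 32 ^ (j + 1) = m
  have e : ((2 : ℝ) ^ m) ^ 5 = 2 ^ (5 * m) := by
    rw [← pow_mul, mul_comm]
  have e2 : (1 / (2 : ℝ) ^ (5 * m)) ^ 3 = (1 / 2) ^ (15 * m) := by
    rw [one_div_pow, one_div_pow, ← pow_mul]
    congr 2
    ring
  rw [e, e2, pow_add]
  norm_num
  ring

lemma vv_le {j k : ℕ} (h : k ≤ j) : vv j ^ 3 / 4 ≤ ((1 / 2 : ℝ) ^ (j + 2) / 9) ^ (k + 1) := by
  rw [vv_eq]
  calc (1 / 2 : ℝ) ^ (15 * 32 ^ (j + 1) + 2) ≤ (1 / 2 : ℝ) ^ ((j + 6) * (k + 1)) :=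
        pow_le_pow_of_le_one (by norm_num) (by norm_num) (big h)
    _ = ((1 / 2 : ℝ) ^ (j + 6)) ^ (k + 1) := by rw [pow_mul]
    _ ≤ ((1 / 2 : ℝ) ^ (j + 2) / 9) ^ (k + 1) := by
        refine pow_le_pow_left₀ (by positivity) ?_ _
        have e : (1 / 2 : ℝ) ^ (j + 6) = (1 / 2 : ℝ) ^ (j + 2) / 16 := by
          rw [show j + 6 = j + 2 + 4 by ring, pow_add _ (j + 2)]
          norm_num
          ring
        rw [e]
        have : 0 < (1 / 2 : ℝ) ^ (j + 2) := by positivity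
        linarith

lemma mm_lt (j : ℕ) : mm j < 3 := by
  unfold mm
  have : 0 < (1 / 2 : ℝ) ^ (j + 1) := by positivity
  linarith

lemma mm_ge (j : ℕ) : 5 / 2 ≤ mm j := by
  unfold mm
  have : (1 / 2 : ℝ) ^ (j + 1) ≤ (1 / 2 : ℝ) ^ 1 :=
    pow_le_pow_of_le_one (by norm_num) (by norm_num) (by omega)
  linarith

lemma x_eq (j : ℕ) : 1 / mm j - 1 / 3 = (1 / 2) ^ (j + 1) / (3 * mm j) := by
  have h1 := mm_ge j
  have h2 : mm j ≠ 0 := by linarith
  have h3 : (1 / 2 : ℝ) ^ (j + 1) = 3 - mm j := by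
    unfold mm
    ring
  rw [h3]
  field_simp

lemma x_ge (j : ℕ) : (1 / 2 : ℝ) ^ (j + 1) / 9 ≤ 1 / mm j - 1 / 3 := by
  rw [x_eq]
  have h1 := mm_ge j
  have h2 := mm_lt j
  exact div_le_div_of_nonneg_left (by positivity) (by linarith) (by linarith)

lemma x_le (j : ℕ) : 1 / mm j - 1 / 3 ≤ (1 / 2 : ℝ) ^ (j + 1) := by
  rw [x_eq]
  have h1 := mm_ge j
  exact div_le_self (by positivity) (by linarith)

end Fla

theorem t_flat : S_flat := by
  intro f hf0 hmono hev k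
  obtain ⟨J0, hJ0⟩ := eventually_atTop.1 hev
  set J := max J0 k with hJ
  have hO : ∀ᶠ ε in 𝓝[>] (0 : ℝ), f (1 / 3 + ε) ≤ ε ^ (k + 1) := by
    have hpos : 0 < 1 / mm J - 1 / 3 :=
      lt_of_lt_of_le (by positivity) (Fla.x_ge J)
    filter_upwards [Ioc_mem_nhdsGT hpos] with ε hε
    obtain ⟨hε0, hε1⟩ := hε
    -- the points `1 / mm j` tend to `1 / 3`
    have hex : ∃ j, ¬ (ε ≤ 1 / mm (J + j) - 1 / 3) := by
      obtain ⟨m, hm⟩ := exists_pow_lt_of_lt_one hε0 (by norm_num : (1 / 2 : ℝ) < 1)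
      refine ⟨m, fun h => ?_⟩
      have h1 := Fla.x_le (J + m)
      have h2 : (1 / 2 : ℝ) ^ (J + m + 1) ≤ (1 / 2 : ℝ) ^ m :=
        pow_le_pow_of_le_one (by norm_num) (by norm_num) (by omega)
      linarith
    classical
    set m := Nat.find hex with hm
    have hm1 : ¬ (ε ≤ 1 / mm (J + m) - 1 / 3) := Nat.find_spec hex
    have hm0 : m ≠ 0 := by
      intro h0
      rw [h0, Nat.add_zero] at hm1
      exact hm1 hε1
    obtain ⟨i, hi⟩ := Nat.exists_eq_succ_of_ne_zero hm0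
    have hi1 : ε ≤ 1 / mm (J + i) - 1 / 3 := by
      by_contra hc
      have := Nat.find_min' hex hc
      rw [← hm] at this
      omega
    have hlow : (1 / 2 : ℝ) ^ (J + i + 2) / 9 ≤ ε := by
      have h1 := Fla.x_ge (J + m)
      rw [hi] at h1 hm1
      have e : J + i.succ + 1 = J + i + 2 := by omega
      rw [e] at h1
      push Not at hm1
      linarith
    have hk : k ≤ J + i := le_trans (le_max_right _ _) (Nat.le_add_right _ _)
    have h0 : J0 ≤ J + i := le_trans (le_max_left _ _) (Nat.le_add_right _ _)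
    calc f (1 / 3 + ε) ≤ f (1 / mm (J + i)) := hmono (by linarith)
      _ ≤ vv (J + i) ^ 3 / 4 := hJ0 _ h0
      _ ≤ ((1 / 2 : ℝ) ^ (J + i + 2) / 9) ^ (k + 1) := Fla.vv_le hk
      _ ≤ ε ^ (k + 1) := pow_le_pow_left₀ (by positivity) hlow _
  have hO2 : (fun ε : ℝ => f (1 / 3 + ε)) =O[𝓝[>] 0] fun ε : ℝ => ε ^ (k + 1) := by
    refine IsBigO.of_bound 1 ?_
    filter_upwards [hO, self_mem_nhdsWithin] with ε h1 h2
    have h3 : (0 : ℝ) < ε := h2
    rw [Real.norm_of_nonneg (hf0 _), Real.norm_of_nonneg (by positivity), one_mul]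
    exact h1
  have ho : (fun ε : ℝ => ε ^ (k + 1)) =o[𝓝[>] 0] fun ε : ℝ => ε ^ k :=
    (isLittleO_pow_pow (Nat.lt_succ_self k)).mono nhdsWithin_le_nhds
  exact hO2.trans_isLittleO ho

end Pool.Agent.H994.QS
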