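import Pool.Agent.H994.QS.Stm

set_option autoImplicit false

open MeasureTheory ProbabilityTheory Filter Topology Asymptotics
open scoped unitInterval ENNReal

namespace Pool.Agent.H994.QS

namespace Law

lemma NN_succ (j : ℕ) : NN (j + 1) = NN j ^ 32 := by
  unfold NN
  rw [← pow_mul, ← pow_succ]

lemma NN_ge (j : ℕ) : 4 ≤ NN j := by
  unfold NN
  have h : 2 ≤ 32 ^ (j + 1) := by
    calc 2 ≤ 32 ^ 1 := by norm_num
      _ ≤ 32 ^ (j + 1) := Nat.pow_le_pow_right (by norm_num) (by omega)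
  calc 4 = 2 ^ 2 := by norm_num
    _ ≤ 2 ^ (32 ^ (j + 1)) := Nat.pow_le_pow_right (by norm_num) h

lemma NN_strictMono : StrictMono NN := by
  intro a b hab
  unfold NN
  apply Nat.pow_lt_pow_right (by norm_num)
  apply Nat.pow_lt_pow_right (by norm_num)
  omega

lemma NN_geR (j : ℕ) : (4 : ℝ) ≤ (NN j : ℝ) := by exact_mod_cast NN_ge j

/-- the masses -/
noncomputable def w (j : ℕ) : ℝ := (1 / 2) ^ (j + 1) / ((NN j : ℝ) - 2)

lemma w_pos (j : ℕ) : 0 < w j := by
  have := NN_geR j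
  unfold w
  apply div_pos (by positivity) (by linarith)

lemma w_mul (j : ℕ) : w j * (NN j : ℝ) = (1 / 2) ^ (j + 1) + 2 * w j := by
  have := NN_geR j
  have h2 : (NN j : ℝ) - 2 ≠ 0 := by linarith
  unfold w
  field_simp
  ring

lemma w_le (j : ℕ) : w j ≤ (1 / 2) ^ (j + 1) := by
  have := NN_geR j
  unfold w
  rw [div_le_iff₀ (by linarith)]
  have h : (0 : ℝ) < (1 / 2) ^ (j + 1) := by positivity
  nlinarith

lemma hasSum_g : HasSum (fun j : ℕ => ((1 : ℝ) / 2) ^ (j + 1)) 1 := by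
  have h := (hasSum_geometric_two).mul_left (1 / 2 : ℝ)
  have e : (fun i : ℕ => (1 / 2 : ℝ) * (1 / 2) ^ i) = fun j : ℕ => ((1 : ℝ) / 2) ^ (j + 1) := by
    funext i; rw [pow_succ]; ring
  rw [e] at h
  have e2 : (1 / 2 : ℝ) * 2 = 1 := by norm_num
  rwa [e2] at h

lemma summable_w : Summable w :=
  Summable.of_nonneg_of_le (fun j => (w_pos j).le) w_le hasSum_g.summable

lemma sum_w_le : ∑' j, w j ≤ 1 := by
  have h := summable_w.tsum_le_tsum w_le hasSum_g.summable
  rwa [hasSum_g.tsum_eq] at h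

/-- the law -/
noncomputable def law : Measure ℕ :=
  ENNReal.ofReal (1 - ∑' j, w j) • Measure.dirac 2 +
    Measure.sum fun j => ENNReal.ofReal (w j) • Measure.dirac (NN j)

lemma lintegral_law (f : ℕ → ℝ≥0∞) :
    ∫⁻ k, f k ∂law = ENNReal.ofReal (1 - ∑' j, w j) * f 2 +
      ∑' j, ENNReal.ofReal (w j) * f (NN j) := by
  rw [law, lintegral_add_measure, lintegral_smul_measure, lintegral_sum_measure, lintegral_dirac]
  simp only [lintegral_smul_measure, lintegral_dirac, smul_eq_mul]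

instance law_prob : IsProbabilityMeasure law := by
  constructor
  have h := lintegral_law 1
  simp only [Pi.one_apply, mul_one, lintegral_one] at h
  rw [h, ← ENNReal.ofReal_tsum_of_nonneg (fun j => (w_pos j).le) summable_w,
    ← ENNReal.ofReal_add (by linarith [sum_w_le]) (tsum_nonneg fun j => (w_pos j).le)]
  simp

lemma integral_law {f : ℕ → ℝ} (hf : ∀ k, 0 ≤ f k) (hs : Summable fun j => w j * f (NN j)) :
    Integrable f law ∧ ∫ k, f k ∂law = (1 - ∑' j, w j) * f 2 + ∑' j, w j * f (NN j) := by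
  have h0 : 0 ≤ ∑' j, w j * f (NN j) := tsum_nonneg fun j => mul_nonneg (w_pos j).le (hf _)
  have h1 : 0 ≤ (1 - ∑' j, w j) * f 2 := mul_nonneg (by linarith [sum_w_le]) (hf 2)
  have hl : ∫⁻ k, ENNReal.ofReal (f k) ∂law
      = ENNReal.ofReal ((1 - ∑' j, w j) * f 2 + ∑' j, w j * f (NN j)) := by
    rw [lintegral_law, ENNReal.ofReal_add h1 h0, ENNReal.ofReal_mul (by linarith [sum_w_le]),
      ENNReal.ofReal_tsum_of_nonneg (fun j => mul_nonneg (w_pos j).le (hf _)) hs]
    congr 1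
    exact tsum_congr fun j => (ENNReal.ofReal_mul (w_pos j).le).symm
  have hm : AEStronglyMeasurable f law := Measurable.aestronglyMeasurable (by fun_prop)
  constructor
  · refine ⟨hm, ?_⟩
    rw [hasFiniteIntegral_iff_ofReal (ae_of_all _ hf), hl]
    exact ENNReal.ofReal_lt_top
  · rw [integral_eq_lintegral_of_nonneg_ae (ae_of_all _ hf) hm, hl, ENNReal.toReal_ofReal
      (add_nonneg h1 h0)]

lemma law_apply (s : Set ℕ) :
    law s = ENNReal.ofReal (1 - ∑' j, w j) * s.indicator 1 2 +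
      ∑' j, ENNReal.ofReal (w j) * s.indicator 1 (NN j) := by
  have hs : MeasurableSet s := trivial
  rw [← lintegral_law, lintegral_indicator_one hs]

lemma two_le : ∀ᵐ k ∂law, 2 ≤ k := by
  rw [ae_iff, law_apply]
  have h1 : ({a : ℕ | ¬ 2 ≤ a} : Set ℕ).indicator (1 : ℕ → ℝ≥0∞) 2 = 0 := by
    apply Set.indicator_of_notMem
    rw [Set.mem_ofPred_eq]
    simp
  have h2 : ∀ j, ({a : ℕ | ¬ 2 ≤ a} : Set ℕ).indicator (1 : ℕ → ℝ≥0∞) (NN j) = 0 := by
    intro j
    apply Set.indicator_of_notMem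
    rw [Set.mem_ofPred_eq]
    have := NN_ge j
    omega
  rw [h1]
  simp only [h2, mul_zero, tsum_zero, add_zero]

lemma summable_wN : Summable fun j => w j * (NN j : ℝ) := by
  have e : (fun j => w j * (NN j : ℝ)) = fun j => (1 / 2 : ℝ) ^ (j + 1) + 2 * w j := by
    funext j; exact w_mul j
  rw [e]
  exact hasSum_g.summable.add (summable_w.mul_left 2)

lemma int_mean : Integrable (fun k : ℕ => (k : ℝ)) law ∧ ∫ k, (k : ℝ) ∂law = 3 := by
  have h := integral_law (f := fun k : ℕ => (k : ℝ)) (fun k => Nat.cast_nonneg k) summable_wN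
  refine ⟨h.1, ?_⟩
  rw [h.2]
  have e : (fun j => w j * (NN j : ℝ)) = fun j => (1 / 2 : ℝ) ^ (j + 1) + 2 * w j := by
    funext j; exact w_mul j
  have e2 : ∑' j, w j * (NN j : ℝ) = 1 + 2 * ∑' j, w j := by
    rw [e, hasSum_g.summable.tsum_add (summable_w.mul_left 2), hasSum_g.tsum_eq, tsum_mul_left]
  rw [e2]
  push_cast
  ring

lemma TT_NN (i j : ℕ) : TT (NN j) (NN i) = if i ≤ j then NN i else 2 := by
  unfold TT
  by_cases h : i ≤ j
  · rw [if_pos h, if_pos (NN_strictMono.monotone h)]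
  · rw [if_neg h, if_neg]
    push Not at h ⊢
    exact NN_strictMono h

lemma w_TT (i j : ℕ) : w i * (TT (NN j) (NN i) : ℝ) =
    2 * w i + if i ∈ Finset.range (j + 1) then (1 / 2 : ℝ) ^ (i + 1) else 0 := by
  rw [TT_NN]
  by_cases h : i ≤ j
  · rw [if_pos h, if_pos (by rw [Finset.mem_range]; omega), w_mul]
    ring
  · rw [if_neg h, if_neg (by rw [Finset.mem_range]; omega)]
    push_cast
    ring

lemma geom_part (j : ℕ) :
    ∑ i ∈ Finset.range (j + 1), (1 / 2 : ℝ) ^ (i + 1) = 1 - (1 / 2) ^ (j + 1) := by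
  induction j with
  | zero => norm_num
  | succ n ih => rw [Finset.sum_range_succ, ih, pow_succ (1 / 2 : ℝ) (n + 1)]; ring

lemma hasSum_TT (j : ℕ) : HasSum (fun i => w i * (TT (NN j) (NN i) : ℝ))
    (2 * ∑' i, w i + (1 - (1 / 2) ^ (j + 1))) := by
  have h1 := (summable_w.hasSum).mul_left (2 : ℝ)
  have h2 : HasSum (fun i => if i ∈ Finset.range (j + 1) then (1 / 2 : ℝ) ^ (i + 1) else 0)
      (1 - (1 / 2) ^ (j + 1)) := by
    rw [← geom_part j]
    have h3 : HasSum (fun i => if i ∈ Finset.range (j + 1) then (1 / 2 : ℝ) ^ (i + 1) else 0)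
        (∑ i ∈ Finset.range (j + 1),
          if i ∈ Finset.range (j + 1) then (1 / 2 : ℝ) ^ (i + 1) else 0) := by
      apply hasSum_sum_of_ne_finset_zero
      intro b hb
      exact if_neg hb
    have h4 : (∑ i ∈ Finset.range (j + 1),
          if i ∈ Finset.range (j + 1) then (1 / 2 : ℝ) ^ (i + 1) else 0)
        = ∑ i ∈ Finset.range (j + 1), (1 / 2 : ℝ) ^ (i + 1) :=
      Finset.sum_congr rfl fun i hi => if_pos hi
    rwa [h4] at h3
  have h5 := h1.add h2
  have e : (fun i => w i * (TT (NN j) (NN i) : ℝ)) = fun i =>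
      2 * w i + if i ∈ Finset.range (j + 1) then (1 / 2 : ℝ) ^ (i + 1) else 0 := by
    funext i; exact w_TT i j
  rw [e]
  exact h5

lemma trunc (j : ℕ) : ∫ k, (TT (NN j) k : ℝ) ∂law = mm j := by
  have hS := hasSum_TT j
  have h := integral_law (f := fun k : ℕ => (TT (NN j) k : ℝ)) (fun k => Nat.cast_nonneg _)
    hS.summable
  rw [h.2, hS.tsum_eq]
  have h2 : TT (NN j) 2 = 2 := by
    unfold TT
    split_ifs <;> rfl
  show (1 - ∑' j, w j) * (TT (NN j) 2 : ℝ) + _ = _
  rw [h2]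
  unfold mm
  push_cast
  ring

lemma hasSum_tail (j : ℕ) : HasSum (fun i : ℕ =>
    if i ∈ Finset.range (j + 1) then (0 : ℝ) else (1 / 2) ^ (i + 1)) ((1 / 2) ^ (j + 1)) := by
  have h2 : HasSum (fun i => if i ∈ Finset.range (j + 1) then (1 / 2 : ℝ) ^ (i + 1) else 0)
      (1 - (1 / 2) ^ (j + 1)) := by
    rw [← geom_part j]
    have h3 : HasSum (fun i => if i ∈ Finset.range (j + 1) then (1 / 2 : ℝ) ^ (i + 1) else 0)
        (∑ i ∈ Finset.range (j + 1),
          if i ∈ Finset.range (j + 1) then (1 / 2 : ℝ) ^ (i + 1) else 0) := by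
      apply hasSum_sum_of_ne_finset_zero
      intro b hb
      exact if_neg hb
    have h4 : (∑ i ∈ Finset.range (j + 1),
          if i ∈ Finset.range (j + 1) then (1 / 2 : ℝ) ^ (i + 1) else 0)
        = ∑ i ∈ Finset.range (j + 1), (1 / 2 : ℝ) ^ (i + 1) :=
      Finset.sum_congr rfl fun i hi => if_pos hi
    rwa [h4] at h3
  have h5 := hasSum_g.sub h2
  have e : (fun i : ℕ => if i ∈ Finset.range (j + 1) then (0 : ℝ) else (1 / 2) ^ (i + 1)) =
      fun i => (1 / 2 : ℝ) ^ (i + 1) -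
        if i ∈ Finset.range (j + 1) then (1 / 2 : ℝ) ^ (i + 1) else 0 := by
    funext i
    split_ifs <;> ring
  rw [e]
  have e2 : (1 / 2 : ℝ) ^ (j + 1) = 1 - (1 - (1 / 2) ^ (j + 1)) := by ring
  rw [e2]
  exact h5

lemma tail (j : ℕ) : law.real {k | NN j < k} ≤ 1 / (NN j : ℝ) ^ 32 := by
  set s : Set ℕ := {k | NN j < k} with hs
  have hf0 : ∀ k, 0 ≤ s.indicator (fun _ => (1 : ℝ)) k := fun k =>
    Set.indicator_nonneg (fun _ _ => zero_le_one) k
  have hle : ∀ i, w i * s.indicator (fun _ => (1 : ℝ)) (NN i) ≤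
      (1 / ((NN (j + 1) : ℝ) - 2)) *
        (if i ∈ Finset.range (j + 1) then (0 : ℝ) else (1 / 2) ^ (i + 1)) := by
    intro i
    have hN := NN_geR (j + 1)
    by_cases h : i ≤ j
    · rw [if_pos (by rw [Finset.mem_range]; omega), Set.indicator_of_notMem, mul_zero, mul_zero]
      rw [hs, Set.mem_ofPred_eq]
      have := NN_strictMono.monotone h
      omega
    · push Not at h
      rw [if_neg (by rw [Finset.mem_range]; omega), Set.indicator_of_mem, mul_one]
      · have hm : (NN (j + 1) : ℝ) ≤ NN i := by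
          exact_mod_cast NN_strictMono.monotone (by omega : j + 1 ≤ i)
        unfold w
        rw [div_eq_mul_one_div, mul_comm]
        apply mul_le_mul_of_nonneg_right _ (by positivity)
        apply one_div_le_one_div_of_le (by linarith) (by linarith)
      · rw [hs, Set.mem_ofPred_eq]
        exact NN_strictMono h
  have hT := (hasSum_tail j).mul_left (1 / ((NN (j + 1) : ℝ) - 2))
  have hsum : Summable fun i => w i * s.indicator (fun _ => (1 : ℝ)) (NN i) :=
    Summable.of_nonneg_of_le (fun i => mul_nonneg (w_pos i).le (hf0 _)) hle hT.summable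
  have h := integral_law hf0 hsum
  have hms : MeasurableSet s := trivial
  have h1 : law.real s = ∫ k, s.indicator (fun _ => (1 : ℝ)) k ∂law := by
    rw [integral_indicator hms, setIntegral_const, smul_eq_mul, mul_one]
  have h2 : s.indicator (fun _ => (1 : ℝ)) 2 = 0 := by
    apply Set.indicator_of_notMem
    rw [hs, Set.mem_ofPred_eq]
    have := NN_ge j
    omega
  rw [h1, h.2, h2, mul_zero, zero_add]
  have h3 := hsum.tsum_le_tsum hle hT.summable
  rw [hT.tsum_eq] at h3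
  refine h3.trans ?_
  have hN := NN_geR (j + 1)
  have e : (NN (j + 1) : ℝ) = (NN j : ℝ) ^ 32 := by rw [NN_succ]; push_cast; rfl
  rw [← e]
  have h4 : (1 / 2 : ℝ) ^ (j + 1) ≤ 1 / 2 := by
    rw [pow_succ]
    have : (1 / 2 : ℝ) ^ j ≤ 1 := pow_le_one₀ (by norm_num) (by norm_num)
    linarith
  calc 1 / ((NN (j + 1) : ℝ) - 2) * (1 / 2) ^ (j + 1)
      ≤ 1 / ((NN (j + 1) : ℝ) - 2) * (1 / 2) := by
        apply mul_le_mul_of_nonneg_left h4
        apply div_nonneg zero_le_one (by linarith)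
    _ = 1 / (2 * ((NN (j + 1) : ℝ) - 2)) := by
        have h5 : (NN (j + 1) : ℝ) - 2 ≠ 0 := by linarith
        field_simp
    _ ≤ 1 / (NN (j + 1) : ℝ) := by
        apply one_div_le_one_div_of_le (by linarith) (by linarith)

end Law

theorem t_law : S_law :=
  ⟨Law.law, ⟨Law.law_prob, Law.two_le, Law.int_mean.1, Law.int_mean.2, Law.trunc, Law.tail⟩⟩

end Pool.Agent.H994.QS
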