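import Pool.Agent.H994.QS.Stm

/-! Lower bound for the annealed survival function of a bounded law. -/

set_option autoImplicit false

open MeasureTheory ProbabilityTheory Filter Topology Asymptotics
open scoped unitInterval ENNReal

namespace Pool.Agent.H994.QS

open Pool.Agent.H181.GW

namespace Low

lemma pow_le (y : ℝ) (h0 : 0 ≤ y) (h1 : y ≤ 1) (k : ℕ) :
    (1 - y) ^ k ≤ 1 - (k : ℝ) * y + (k : ℝ) * ((k : ℝ) - 1) / 2 * y ^ 2 := by
  induction k with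
  | zero => simp
  | succ k ih =>
    have h2 : (0 : ℝ) ≤ 1 - y := by linarith
    have hk : (0 : ℝ) ≤ (k : ℝ) * ((k : ℝ) - 1) / 2 := by
      rcases Nat.eq_zero_or_pos k with hk | hk
      · subst hk; simp
      · have : (1 : ℝ) ≤ (k : ℝ) := by exact_mod_cast hk
        have h3 : (0 : ℝ) ≤ (k : ℝ) - 1 := by linarith
        positivity
    have hy3 : (0 : ℝ) ≤ y ^ 3 := by positivity
    calc (1 - y) ^ (k + 1) = (1 - y) * (1 - y) ^ k := by rw [pow_succ']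
      _ ≤ (1 - y) * (1 - (k : ℝ) * y + (k : ℝ) * ((k : ℝ) - 1) / 2 * y ^ 2) :=
          mul_le_mul_of_nonneg_left ih h2
      _ = 1 - ((k : ℝ) + 1) * y + ((k : ℝ) + 1) * (k : ℝ) / 2 * y ^ 2
            - (k : ℝ) * ((k : ℝ) - 1) / 2 * y ^ 3 := by ring
      _ ≤ 1 - ((k : ℝ) + 1) * y + ((k : ℝ) + 1) * (k : ℝ) / 2 * y ^ 2 := by
          have := mul_nonneg hk hy3
          linarith
      _ = 1 - ((k + 1 : ℕ) : ℝ) * y
            + ((k + 1 : ℕ) : ℝ) * (((k + 1 : ℕ) : ℝ) - 1) / 2 * y ^ 2 := by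
          push_cast
          ring

end Low

theorem t_lower : S_lower := by
  intro ν _ N hN p x hx0 hx1 hyp
  have hp0 : (0 : ℝ) ≤ p := p.2.1
  have hp1 : (p : ℝ) ≤ 1 := p.2.2
  have hy0 : 0 ≤ (p : ℝ) * x := mul_nonneg hp0 hx0
  have hy1 : (p : ℝ) * x ≤ 1 := by nlinarith
  refine annealed_max p ν hx0 hx1 ?_
  have hint : Integrable (fun k : ℕ => (k : ℝ)) ν := by
    refine Integrable.mono' (integrable_const (N : ℝ))
      (Measurable.aestronglyMeasurable (by fun_prop)) ?_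
    filter_upwards [hN] with k hk
    rw [Real.norm_eq_abs, abs_of_nonneg (Nat.cast_nonneg k)]
    exact_mod_cast hk
  have hc : 0 ≤ 1 - (p : ℝ) * x := by linarith
  have hc1 : 1 - (p : ℝ) * x ≤ 1 := by linarith
  have hintL : Integrable (fun k : ℕ => (1 - (p : ℝ) * x) ^ k) ν := by
    refine Integrable.mono' (integrable_const (1 : ℝ))
      (Measurable.aestronglyMeasurable (by fun_prop)) (ae_of_all _ fun k => ?_)
    rw [Real.norm_eq_abs, abs_of_nonneg (pow_nonneg hc k)]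
    exact pow_le_one₀ hc hc1
  have hintR : Integrable (fun k : ℕ => 1 + (k : ℝ) *
      (N / 2 * ((p : ℝ) * x) ^ 2 - (p : ℝ) * x)) ν :=
    (integrable_const (1 : ℝ)).add (hint.mul_const _)
  have hle : ∫ k, (1 - (p : ℝ) * x) ^ k ∂ν ≤ ∫ k, (1 + (k : ℝ) *
      (N / 2 * ((p : ℝ) * x) ^ 2 - (p : ℝ) * x)) ∂ν := by
    refine integral_mono_ae hintL hintR ?_
    filter_upwards [hN] with k hk
    have h1 := Low.pow_le ((p : ℝ) * x) hy0 hy1 k
    have hk' : (k : ℝ) ≤ (N : ℝ) := by exact_mod_cast hk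
    have hk0 : (0 : ℝ) ≤ (k : ℝ) := Nat.cast_nonneg k
    have h2 : (k : ℝ) * ((k : ℝ) - 1) / 2 ≤ (k : ℝ) * (N / 2) := by
      have h4 : (k : ℝ) * ((k : ℝ) - 1) ≤ (k : ℝ) * N :=
        mul_le_mul_of_nonneg_left (by linarith) hk0
      linarith
    have h3 : (k : ℝ) * ((k : ℝ) - 1) / 2 * ((p : ℝ) * x) ^ 2
        ≤ (k : ℝ) * (N / 2) * ((p : ℝ) * x) ^ 2 :=
      mul_le_mul_of_nonneg_right h2 (by positivity)
    calc (1 - (p : ℝ) * x) ^ k
        ≤ 1 - (k : ℝ) * ((p : ℝ) * x) + (k : ℝ) * ((k : ℝ) - 1) / 2 * ((p : ℝ) * x) ^ 2 := h1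
      _ ≤ 1 - (k : ℝ) * ((p : ℝ) * x) + (k : ℝ) * (N / 2) * ((p : ℝ) * x) ^ 2 := by linarith
      _ = 1 + (k : ℝ) * (N / 2 * ((p : ℝ) * x) ^ 2 - (p : ℝ) * x) := by ring
  have hR : ∫ k, (1 + (k : ℝ) * (N / 2 * ((p : ℝ) * x) ^ 2 - (p : ℝ) * x)) ∂ν
      = 1 + (∫ k, (k : ℝ) ∂ν) * (N / 2 * ((p : ℝ) * x) ^ 2 - (p : ℝ) * x) := by
    rw [integral_add (integrable_const (1 : ℝ)) (hint.mul_const _), integral_const,
      probReal_univ, one_smul, integral_mul_const]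
  rw [hR] at hle
  have h5 := mul_le_mul_of_nonneg_right hyp hx0
  have h6 : (p : ℝ) ^ 2 * x * (N * ∫ k, (k : ℝ) ∂ν) / 2 * x
      = (∫ k, (k : ℝ) ∂ν) * (N / 2 * ((p : ℝ) * x) ^ 2) := by ring
  have h7 : ((p : ℝ) * (∫ k, (k : ℝ) ∂ν) - 1) * x
      = (∫ k, (k : ℝ) ∂ν) * ((p : ℝ) * x) - x := by ring
  rw [h6, h7] at h5
  rw [mul_sub] at hle
  linarith

end Pool.Agent.H994.QS
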