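import Pool.Agent.H994.QS.Stm

/-!
# The quenched survival function is monotone in `p` and in the tree (helper213)
-/

set_option autoImplicit false

open MeasureTheory ProbabilityTheory Filter Topology Asymptotics
open scoped unitInterval ENNReal

namespace Pool.Agent.H994.QS

open Pool.Agent.H181.GW

namespace Mono

theorem c01_toReal (p : I) (t : ℝ≥0∞) (ht : t ≤ 1) :
    (c0 p + c1 p * t).toReal = 1 - p + p * t.toReal := by
  have h0 : (c0 p).toReal = 1 - p := rfl
  have h1 : (c1 p).toReal = p := rfl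
  have n0 : c0 p ≠ ⊤ := ENNReal.coe_ne_top
  have n1 : c1 p ≠ ⊤ := ENNReal.coe_ne_top
  rw [ENNReal.toReal_add n0 (ENNReal.mul_ne_top n1
    (ne_top_of_le_ne_top ENNReal.one_ne_top ht)), ENNReal.toReal_mul, h0, h1]

theorem c01_mono (p q : I) (hpq : p ≤ q) (s t : ℝ≥0∞) (hst : s ≤ t) (ht : t ≤ 1) :
    c0 q + c1 q * s ≤ c0 p + c1 p * t := by
  have h1 : c0 q + c1 q * s ≤ c0 q + c1 q * t := by gcongr
  refine h1.trans ?_
  have ht' : t ≠ ⊤ := ne_top_of_le_ne_top ENNReal.one_ne_top ht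
  have hne : ∀ r : I, c0 r + c1 r * t ≠ ⊤ := fun r =>
    ENNReal.add_ne_top.2 ⟨ENNReal.coe_ne_top, ENNReal.mul_ne_top ENNReal.coe_ne_top ht'⟩
  rw [← ENNReal.toReal_le_toReal (hne q) (hne p), c01_toReal q t ht, c01_toReal p t ht]
  have h2 : t.toReal ≤ 1 := by
    have := ENNReal.toReal_mono ENNReal.one_ne_top ht
    rwa [ENNReal.toReal_one] at this
  have h3 : (p : ℝ) ≤ q := hpq
  nlinarith

theorem qe_anti (p q : I) (hpq : p ≤ q) : ∀ (n : ℕ) (Z : Env), qe q n Z ≤ qe p n Z := by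
  intro n
  induction n with
  | zero => intro Z; rw [qe_zero, qe_zero]
  | succ n ih =>
    intro Z
    rw [qe_succ, qe_succ]
    exact Finset.prod_le_prod' fun i _ => c01_mono p q hpq _ _ (ih _) (qe_le_one p n _)

end Mono

theorem t_monop : S_monop := by
  intro Z p q hpq
  rw [quenched_eq, quenched_eq]
  have h1 : (⨆ n, qe q n Z) ≤ ⨆ n, qe p n Z := iSup_mono fun n => Mono.qe_anti p q hpq n Z
  have h2 : (⨆ n, qe p n Z) ≠ ⊤ :=
    ne_top_of_le_ne_top ENNReal.one_ne_top (iSup_le fun n => qe_le_one p n Z)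
  have h3 := ENNReal.toReal_mono h2 h1
  linarith

theorem t_monoZ : S_monoZ := by
  intro Z Z' h p
  unfold quenched
  apply measureReal_mono
  · intro b hb
    exact Set.Infinite.mono (fun u hu k hk => ⟨(hu k hk).1.trans_le (h _), (hu k hk).2⟩) hb
  · exact measure_ne_top _ _

end Pool.Agent.H994.QS
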