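import Pool.Agent.H994.QS.Stm

set_option autoImplicit false

open MeasureTheory ProbabilityTheory Filter Topology Asymptotics
open scoped unitInterval ENNReal

namespace Pool.Agent.H994.QS

open Pool.Agent.H181.GW

namespace NC2

theorem key (f : ℝ → ℝ) (a b : ℝ) (hab : a < b) (hf : ContDiffOn ℝ 2 f (Set.Icc a b)) :
    ∃ L : ℝ, 0 ≤ L ∧ ∀ x h : ℝ, 0 ≤ h → a < x - h → x + h < b →
      |f (x + h) + f (x - h) - 2 * f x| ≤ 2 * L * h * h := by
  set K := Set.Icc a b with hK
  have hu : UniqueDiffOn ℝ K := uniqueDiffOn_Icc hab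
  have hg : ContDiffOn ℝ 1 (derivWithin f K) K := hf.derivWithin hu (by norm_num)
  have hgc : ContinuousOn (derivWithin (derivWithin f K) K) K :=
    hg.continuousOn_derivWithin hu (by norm_num)
  have hKc : IsCompact K := isCompact_Icc
  obtain ⟨L, hL⟩ := hKc.exists_bound_of_continuousOn hgc
  have hconv : Convex ℝ K := convex_Icc a b
  have hlip : ∀ y ∈ K, ∀ z ∈ K, |derivWithin f K z - derivWithin f K y| ≤ L * |z - y| := by
    intro y hy z hz
    exact hconv.norm_image_sub_le_of_norm_derivWithin_le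
      (hg.differentiableOn (by norm_num)) hL hy hz
  have hL0 : 0 ≤ L := by
    have := hL a ⟨le_refl _, hab.le⟩
    exact (norm_nonneg _).trans this
  refine ⟨L, hL0, ?_⟩
  intro x h hh h1 h2
  have hd : ∀ y, a < y → y < b → HasDerivAt f (derivWithin f K y) y := by
    intro y hy1 hy2
    have hyK : y ∈ K := ⟨hy1.le, hy2.le⟩
    exact ((hf.differentiableOn (by norm_num) y hyK).hasDerivWithinAt).hasDerivAt
      (Icc_mem_nhds hy1 hy2)
  have hφ : ∀ t ∈ Set.Icc (0 : ℝ) h, HasDerivWithinAt (fun t => f (x + t) + f (x - t))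
      (derivWithin f K (x + t) - derivWithin f K (x - t)) (Set.Icc 0 h) t := by
    intro t ht
    have e1 : HasDerivAt (fun t => f (x + t)) (derivWithin f K (x + t)) t := by
      exact HasDerivAt.comp_const_add x t
        (hd (x + t) (by linarith [ht.1, ht.2]) (by linarith [ht.1, ht.2]))
    have e2 : HasDerivAt (fun t => f (x - t)) (-derivWithin f K (x - t)) t := by
      exact HasDerivAt.comp_const_sub x t
        (hd (x - t) (by linarith [ht.1, ht.2]) (by linarith [ht.1, ht.2]))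
    have := (e1.fun_add e2).hasDerivWithinAt (s := Set.Icc 0 h)
    rw [sub_eq_add_neg]
    exact this
  have hb : ∀ t ∈ Set.Icc (0 : ℝ) h,
      ‖derivWithin f K (x + t) - derivWithin f K (x - t)‖ ≤ 2 * L * h := by
    intro t ht
    have := hlip (x - t) ⟨by linarith [ht.1, ht.2], by linarith [ht.1, ht.2]⟩ (x + t)
      ⟨by linarith [ht.1, ht.2], by linarith [ht.1, ht.2]⟩
    have e : |x + t - (x - t)| = 2 * t := by
      rw [show x + t - (x - t) = 2 * t by ring]
      exact abs_of_nonneg (by linarith [ht.1])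
    rw [e] at this
    rw [Real.norm_eq_abs]
    refine this.trans ?_
    nlinarith [ht.2, ht.1]
  have := (convex_Icc (0 : ℝ) h).norm_image_sub_le_of_norm_hasDerivWithin_le hφ hb
    (⟨le_refl _, hh⟩ : (0 : ℝ) ∈ Set.Icc (0 : ℝ) h) (⟨hh, le_refl _⟩ : h ∈ Set.Icc (0 : ℝ) h)
  simp only [Real.norm_eq_abs, add_zero, sub_zero] at this
  rw [abs_of_nonneg hh] at this
  have e : f (x + h) + f (x - h) - 2 * f x = f (x + h) + f (x - h) - (f x + f x) := by ring
  rw [e]
  exact this

end NC2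

theorem t_notC2 : S_notC2 := by
  intro f x v hf hv hx hxt hvt hev δ hδ hC
  have hsub : Set.Icc (1 / 3 : ℝ) (1 / 3 + δ / 2) ⊆ Set.Ico (1 / 3) (1 / 3 + δ) := by
    intro y hy
    exact ⟨hy.1, by linarith [hy.2]⟩
  obtain ⟨L, hL0, hL⟩ := NC2.key f (1 / 3) (1 / 3 + δ / 2) (by linarith) (hC.mono hsub)
  have h1 : ∀ᶠ j in atTop, x j + v j ^ 2 < 1 / 3 + δ / 2 := by
    have : Tendsto (fun j => x j + v j ^ 2) atTop (𝓝 (1 / 3 + 0 ^ 2)) := hxt.add (hvt.pow 2)
    exact this.eventually_lt_const (by simpa using hδ)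
  have h2 : ∀ᶠ j in atTop, 2 * L * v j < 1 / 2 := by
    have : Tendsto (fun j => 2 * L * v j) atTop (𝓝 (2 * L * 0)) := hvt.const_mul (2 * L)
    exact this.eventually_lt_const (by norm_num)
  obtain ⟨j, hj1, hj2, hj3⟩ := (h1.and (h2.and hev)).exists
  have hvj := hv j
  have := hL (x j) (v j ^ 2) (by positivity) (hx j) hj1
  have h3 := (abs_le.1 this).2
  have h4 := hf (x j - v j ^ 2)
  have h5 : v j ^ 3 * (1 / 2) ≤ 2 * L * v j ^ 2 * v j ^ 2 := by nlinarith [hj3.1, hj3.2]
  have h6 : 0 < v j ^ 3 := by positivity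
  have h7 : v j ^ 3 * (1 / 2) ≤ v j ^ 3 * (2 * L * v j) := by
    calc v j ^ 3 * (1 / 2) ≤ 2 * L * v j ^ 2 * v j ^ 2 := h5
      _ = v j ^ 3 * (2 * L * v j) := by ring
  have := le_of_mul_le_mul_left h7 h6
  linarith

end Pool.Agent.H994.QS
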