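import Pool.Agent.H994.QS.Stm

set_option autoImplicit false

open MeasureTheory ProbabilityTheory Filter Topology
open scoped unitInterval ENNReal

namespace Pool.Agent.H994.QS

open Pool.Agent.H181.GW

namespace Prp

theorem q_nonneg (Z : Env) (p : I) : 0 ≤ quenched Z p := measureReal_nonneg

theorem q_le_one (Z : Env) (p : I) : quenched Z p ≤ 1 := measureReal_le_one

theorem ge_child (hfix : S_fix) (Z : Env) (p : I) (i : ℕ) (hi : i < Z []) :
    (p : ℝ) * quenched (sub Z i) p ≤ quenched Z p := by
  rw [hfix Z p]
  have hp0 : (0 : ℝ) ≤ p := p.2.1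
  have hp1 : (p : ℝ) ≤ 1 := p.2.2
  have h0 : ∀ j, 0 ≤ 1 - (p : ℝ) * quenched (sub Z j) p := fun j => by
    have h2 := q_nonneg (sub Z j) p
    have h3 := q_le_one (sub Z j) p
    nlinarith
  have h1 : ∀ j, 1 - (p : ℝ) * quenched (sub Z j) p ≤ 1 := fun j => by
    have h2 := mul_nonneg hp0 (q_nonneg (sub Z j) p)
    linarith
  have h4 : ∏ j ∈ Finset.range (Z []), (1 - (p : ℝ) * quenched (sub Z j) p) ≤
      1 - (p : ℝ) * quenched (sub Z i) p := by
    rw [← Finset.mul_prod_erase _ _ (Finset.mem_range.2 hi)]
    exact mul_le_of_le_one_right (h0 i) (Finset.prod_le_one (fun j _ => h0 j) fun j _ => h1 j)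
  linarith

end Prp

open Prp in
theorem t_prop (hfix : S_fix) (hm : S_meas) : S_prop := by
  intro ν hν h2 p s
  by_cases hp : (p : ℝ) = 0
  · have hem : {Z : Env | quenched Z p < p * s} = ∅ := by
      ext Z
      simp only [Set.mem_ofPred_eq, Set.mem_empty_iff_false, iff_false, not_lt, hp, zero_mul]
      exact q_nonneg Z p
    rw [hem, measure_empty]
    exact bot_le
  · have hp0 : (0 : ℝ) < p := lt_of_le_of_ne p.2.1 (Ne.symm hp)
    have hroot : ∀ᵐ Z ∂(GWlaw ν), 2 ≤ Z [] := by
      have h3 : (GWlaw ν).map (fun Z : Env => Z []) = ν := by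
        rw [GWlaw]
        exact Measure.infinitePi_map_eval (fun _ : List ℕ => ν) []
      have h4 : AEMeasurable (fun Z : Env => Z []) (GWlaw ν) :=
        (measurable_pi_apply (X := fun _ : List ℕ => ℕ) ([] : List ℕ)).aemeasurable
      rw [← h3] at h2
      exact ae_of_ae_map h4 h2
    have hS : MeasurableSet {Z : Env | quenched Z p < s} := measurableSet_lt (hm p) measurable_const
    have hpi : MeasurableSet (Set.pi ((Finset.range 2 : Finset ℕ) : Set ℕ)
        fun _ => {Z : Env | quenched Z p < s}) :=
      .pi (Finset.countable_toSet _) fun _ _ => hS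
    have hmap : Measurable fun (f : Env) (i : ℕ) => sub f i :=
      measurable_pi_lambda _ fun i => measurable_sub i
    calc GWlaw ν {Z : Env | quenched Z p < p * s} ≤
        GWlaw ν ((fun (f : Env) (i : ℕ) => sub f i) ⁻¹'
          (Set.pi ((Finset.range 2 : Finset ℕ) : Set ℕ) fun _ => {Z : Env | quenched Z p < s})) := by
          apply measure_mono_ae
          filter_upwards [hroot] with Z hZ hq
          have hq' : quenched Z p < p * s := hq
          intro i hi
          have hi2 : i < 2 := by simpa using hi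
          have h5 := ge_child hfix Z p i (by omega)
          show quenched (sub Z i) p < s
          exact lt_of_mul_lt_mul_left (h5.trans_lt hq') hp0.le
      _ = ∏ _i ∈ Finset.range 2, GWlaw ν {Z : Env | quenched Z p < s} := by
          rw [← Measure.map_apply hmap hpi, GWlaw, subLaw]
          exact Measure.infinitePi_pi _ fun _ _ => hS
      _ = (GWlaw ν {Z : Env | quenched Z p < s}) ^ 2 := by
          rw [Finset.prod_const, Finset.card_range]

end Pool.Agent.H994.QS
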