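import Pool.Agent.H994.QS.Stm

set_option autoImplicit false

open MeasureTheory ProbabilityTheory Filter Topology
open scoped unitInterval ENNReal

namespace Pool.Agent.H994.QS.Sec

open Pool.Agent.H181.GW

lemma one_sub_prod_le {ι : Type*} (s : Finset ι) (y : ι → ℝ) (h0 : ∀ i ∈ s, 0 ≤ y i)
    (h1 : ∀ i ∈ s, y i ≤ 1) : 1 - ∏ i ∈ s, (1 - y i) ≤ ∑ i ∈ s, y i := by
  classical
  induction s using Finset.induction_on with
  | empty => simp
  | insert a s ha ih =>
    rw [Finset.prod_insert ha, Finset.sum_insert ha]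
    have ih' := ih (fun i hi => h0 i (Finset.mem_insert_of_mem hi))
      (fun i hi => h1 i (Finset.mem_insert_of_mem hi))
    have ha0 := h0 a (Finset.mem_insert_self a s)
    have hP : ∏ i ∈ s, (1 - y i) ≤ 1 :=
      Finset.prod_le_one (fun i hi => by linarith [h1 i (Finset.mem_insert_of_mem hi)])
        (fun i hi => by linarith [h0 i (Finset.mem_insert_of_mem hi)])
    nlinarith

lemma int_eval (ν : Measure ℕ) [IsProbabilityMeasure ν] (f : Env → ℝ) (hf : Measurable f)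
    (i : ℕ) : ∫ y, f (y i) ∂(Measure.infinitePi fun _ : ℕ => GWlaw ν) = ∫ Z, f Z ∂(GWlaw ν) := by
  have h := Measure.infinitePi_map_eval (fun _ : ℕ => GWlaw ν) i
  conv_rhs => rw [← h]
  rw [integral_map (measurable_pi_apply i).aemeasurable hf.aestronglyMeasurable]

lemma bdd_int {Ω : Type*} [MeasurableSpace Ω] (P : Measure Ω) [IsProbabilityMeasure P]
    (f : Ω → ℝ) (hf : Measurable f) (C : ℝ) (h0 : ∀ x, 0 ≤ f x) (h1 : ∀ x, f x ≤ C) :
    Integrable f P := by
  refine Integrable.mono' (integrable_const C) hf.aestronglyMeasurable (ae_of_all _ fun x => ?_)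
  rw [Real.norm_eq_abs, abs_of_nonneg (h0 x)]
  exact h1 x

lemma sq_sum (ν : Measure ℕ) [IsProbabilityMeasure ν] (X : Env → ℝ) (hX : Measurable X)
    (h0 : ∀ Z, 0 ≤ X Z) (h1 : ∀ Z, X Z ≤ 1) (n : ℕ) :
    ∫ y, (∑ i ∈ Finset.range n, X (y i)) ^ 2 ∂(Measure.infinitePi fun _ : ℕ => GWlaw ν)
      = (n : ℝ) * (∫ Z, X Z ^ 2 ∂(GWlaw ν))
        + (n : ℝ) * ((n : ℝ) - 1) * (∫ Z, X Z ∂(GWlaw ν)) ^ 2 := by
  have hind := iIndepFun_infinitePi (P := fun _ : ℕ => GWlaw ν)
    (X := fun (_ : ℕ) (x : Env) => X x) fun _ => hX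
  have hXi : ∀ i : ℕ, Measurable fun y : ℕ → Env => X (y i) :=
    fun i => hX.comp (measurable_pi_apply i)
  have hmul : ∀ i j : ℕ, Integrable (fun y : ℕ → Env => X (y i) * X (y j))
      (Measure.infinitePi fun _ : ℕ => GWlaw ν) := by
    intro i j
    refine bdd_int _ _ ((hXi i).mul (hXi j)) 1 (fun y => mul_nonneg (h0 _) (h0 _)) (fun y => ?_)
    exact mul_le_one₀ (h1 _) (h0 _) (h1 _)
  have hval : ∀ i j : ℕ, ∫ y, X (y i) * X (y j) ∂(Measure.infinitePi fun _ : ℕ => GWlaw ν)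
      = if i = j then (∫ Z, X Z ^ 2 ∂(GWlaw ν)) else (∫ Z, X Z ∂(GWlaw ν)) ^ 2 := by
    intro i j
    split_ifs with hij
    · subst hij
      have h2 := int_eval ν (fun Z => X Z ^ 2) (hX.pow_const 2) i
      rw [← h2]
      exact integral_congr_ae (ae_of_all _ fun y => by simp only; ring)
    · have h3 := (hind.indepFun hij).integral_fun_mul_eq_mul_integral
        (hXi i).aestronglyMeasurable (hXi j).aestronglyMeasurable
      rw [h3, int_eval ν X hX i, int_eval ν X hX j]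
      ring
  have hexp : ∀ y : ℕ → Env, (∑ i ∈ Finset.range n, X (y i)) ^ 2
      = ∑ i ∈ Finset.range n, ∑ j ∈ Finset.range n, X (y i) * X (y j) := by
    intro y
    rw [sq, Finset.sum_mul_sum]
  simp only [hexp]
  rw [integral_finsetSum _ (fun i _ => integrable_finsetSum _ (fun j _ => hmul i j))]
  have hstep : ∀ i ∈ Finset.range n,
      ∫ y, ∑ j ∈ Finset.range n, X (y i) * X (y j) ∂(Measure.infinitePi fun _ : ℕ => GWlaw ν)
        = (∫ Z, X Z ^ 2 ∂(GWlaw ν)) + ((n : ℝ) - 1) * (∫ Z, X Z ∂(GWlaw ν)) ^ 2 := by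
    intro i hi
    rw [integral_finsetSum _ (fun j _ => hmul i j)]
    simp only [hval]
    rw [← Finset.add_sum_erase _ _ hi, if_pos rfl]
    congr 1
    have h4 : ∀ j ∈ (Finset.range n).erase i, (if i = j then (∫ Z, X Z ^ 2 ∂(GWlaw ν))
        else (∫ Z, X Z ∂(GWlaw ν)) ^ 2) = (∫ Z, X Z ∂(GWlaw ν)) ^ 2 := by
      intro j hj
      rw [if_neg (Finset.ne_of_mem_erase hj).symm]
    rw [Finset.sum_congr rfl h4, Finset.sum_const, Finset.card_erase_of_mem hi,
      Finset.card_range, nsmul_eq_mul]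
    have hn : 1 ≤ n := by
      have := Finset.mem_range.mp hi
      omega
    rw [Nat.cast_sub hn, Nat.cast_one]
  rw [Finset.sum_congr rfl hstep, Finset.sum_const, Finset.card_range, nsmul_eq_mul]
  ring

end Pool.Agent.H994.QS.Sec

namespace Pool.Agent.H994.QS

open Pool.Agent.H181.GW Sec

theorem t_second (hfix : S_fix) (hm : S_meas) : S_second := by
  intro ν _ N hN p hp
  have hX : Measurable fun Z : Env => quenched Z p := hm p
  have h0 : ∀ Z : Env, 0 ≤ quenched Z p := fun Z => measureReal_nonneg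
  have h1 : ∀ Z : Env, quenched Z p ≤ 1 := fun Z => measureReal_le_one
  have hp0 : (0 : ℝ) ≤ p := p.2.1
  have hp1 : (p : ℝ) ≤ 1 := p.2.2
  set b : ℝ := ∫ Z, (quenched Z p) ^ 2 ∂(GWlaw ν) with hb
  have hann : annealed ν p = ∫ Z, quenched Z p ∂(GWlaw ν) := rfl
  set a : ℝ := ∫ Z, quenched Z p ∂(GWlaw ν) with ha
  rw [hann]
  -- the comparison function
  set F : ℕ × (ℕ → Env) → ℝ := fun x =>
    (p : ℝ) ^ 2 * (∑ i ∈ Finset.range (min x.1 N), quenched (x.2 i) p) ^ 2 with hF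
  have hFm : Measurable F := by
    apply measurable_from_prod_countable_right
    intro k
    simp only [hF]
    exact ((Finset.measurable_sum _ fun i _ => hX.comp (measurable_pi_apply i)).pow_const 2).const_mul _
  have hF0 : ∀ x, 0 ≤ F x := fun x => by simp only [hF]; positivity
  have hF1 : ∀ x, F x ≤ (N : ℝ) ^ 2 := by
    intro x
    simp only [hF]
    have h2 : ∑ i ∈ Finset.range (min x.1 N), quenched (x.2 i) p ≤ (N : ℝ) := by
      calc ∑ i ∈ Finset.range (min x.1 N), quenched (x.2 i) p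
          ≤ ∑ i ∈ Finset.range (min x.1 N), (1 : ℝ) := Finset.sum_le_sum fun i _ => h1 _
        _ = ((min x.1 N : ℕ) : ℝ) := by simp
        _ ≤ (N : ℝ) := by exact_mod_cast min_le_right _ _
    have h3 : 0 ≤ ∑ i ∈ Finset.range (min x.1 N), quenched (x.2 i) p :=
      Finset.sum_nonneg fun i _ => h0 _
    have h4 : (∑ i ∈ Finset.range (min x.1 N), quenched (x.2 i) p) ^ 2 ≤ (N : ℝ) ^ 2 :=
      pow_le_pow_left₀ h3 h2 2
    have h5 : (p : ℝ) ^ 2 ≤ 1 := pow_le_one₀ hp0 hp1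
    calc (p : ℝ) ^ 2 * (∑ i ∈ Finset.range (min x.1 N), quenched (x.2 i) p) ^ 2
        ≤ 1 * (N : ℝ) ^ 2 := mul_le_mul h5 h4 (sq_nonneg _) zero_le_one
      _ = (N : ℝ) ^ 2 := one_mul _
  have hle : ∀ᵐ Z ∂(GWlaw ν), (quenched Z p) ^ 2
      ≤ F ((fun f : Env => (f [], fun i : ℕ => sub f i)) Z) := by
    have hroot : ∀ᵐ Z ∂(GWlaw ν), Z ([] : List ℕ) ≤ N := by
      have h2 := Measure.infinitePi_map_eval (fun _ : List ℕ => ν) ([] : List ℕ)
      have h3 : ∀ᵐ k ∂((Measure.infinitePi fun _ : List ℕ => ν).map (fun x => x ([] : List ℕ))),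
          k ≤ N := by rw [h2]; exact hN
      exact ae_of_ae_map (measurable_pi_apply _).aemeasurable h3
    filter_upwards [hroot] with Z hZ
    simp only [hF, min_eq_left hZ]
    have h2 : quenched Z p ≤ ∑ i ∈ Finset.range (Z []), (p : ℝ) * quenched (sub Z i) p := by
      conv_lhs => rw [hfix Z p]
      exact one_sub_prod_le _ _ (fun i _ => mul_nonneg hp0 (h0 _))
        (fun i _ => mul_le_one₀ hp1 (h0 _) (h1 _))
    rw [← Finset.mul_sum] at h2
    calc (quenched Z p) ^ 2 ≤ ((p : ℝ) * ∑ i ∈ Finset.range (Z []), quenched (sub Z i) p) ^ 2 :=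
          pow_le_pow_left₀ (h0 Z) h2 2
      _ = (p : ℝ) ^ 2 * (∑ i ∈ Finset.range (Z []), quenched (sub Z i) p) ^ 2 := by ring
  have hFT : Measurable fun Z : Env => F ((fun f : Env => (f [], fun i : ℕ => sub f i)) Z) :=
    hFm.comp measurable_treeMap
  have hb1 : b ≤ ∫ Z, F ((fun f : Env => (f [], fun i : ℕ => sub f i)) Z) ∂(GWlaw ν) :=
    integral_mono_ae (bdd_int _ _ (hX.pow_const 2) 1 (fun Z => sq_nonneg _)
      (fun Z => pow_le_one₀ (h0 _) (h1 _)))
      (bdd_int _ _ hFT ((N : ℝ) ^ 2) (fun Z => hF0 _) (fun Z => hF1 _)) hle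
  have htree : (GWlaw ν).map (fun f : Env => (f [], fun i : ℕ => sub f i))
      = ν.prod (Measure.infinitePi fun _ : ℕ => GWlaw ν) := treeLaw ν
  have hb2 : ∫ Z, F ((fun f : Env => (f [], fun i : ℕ => sub f i)) Z) ∂(GWlaw ν)
      = ∫ k, ∫ y, F (k, y) ∂(Measure.infinitePi fun _ : ℕ => GWlaw ν) ∂ν := by
    rw [← integral_map measurable_treeMap.aemeasurable hFm.aestronglyMeasurable, htree,
      integral_prod _ (bdd_int _ _ hFm ((N : ℝ) ^ 2) hF0 hF1)]
  have hinner : ∀ᵐ k ∂ν, ∫ y, F (k, y) ∂(Measure.infinitePi fun _ : ℕ => GWlaw ν)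
      = (p : ℝ) ^ 2 * ((k : ℝ) * b + (k : ℝ) * ((k : ℝ) - 1) * a ^ 2) := by
    filter_upwards [hN] with k hk
    simp only [hF, min_eq_left hk]
    rw [integral_const_mul, sq_sum ν (fun Z => quenched Z p) hX h0 h1 k]
  rw [integral_congr_ae hinner] at hb2
  have hik : Integrable (fun k : ℕ => (k : ℝ)) ν := by
    refine Integrable.mono' (integrable_const (N : ℝ)) (Measurable.aestronglyMeasurable (by fun_prop)) ?_
    filter_upwards [hN] with k hk
    rw [Real.norm_eq_abs, abs_of_nonneg (by positivity)]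
    exact_mod_cast hk
  have hikk : Integrable (fun k : ℕ => (k : ℝ) * ((k : ℝ) - 1)) ν := by
    refine Integrable.mono' (integrable_const ((N : ℝ) * ((N : ℝ) + 1)))
      (Measurable.aestronglyMeasurable (by fun_prop)) ?_
    filter_upwards [hN] with k hk
    have hk' : (k : ℝ) ≤ N := by exact_mod_cast hk
    have hk0 : (0 : ℝ) ≤ k := by positivity
    rw [Real.norm_eq_abs, abs_mul, abs_of_nonneg hk0]
    refine mul_le_mul hk' ?_ (abs_nonneg _) (by positivity)
    rw [abs_le]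
    constructor <;> linarith
  have hb3 : ∫ k, (p : ℝ) ^ 2 * ((k : ℝ) * b + (k : ℝ) * ((k : ℝ) - 1) * a ^ 2) ∂ν
      = (p : ℝ) ^ 2 * ((∫ k, (k : ℝ) ∂ν) * b + (∫ k, ((k : ℝ) * ((k : ℝ) - 1)) ∂ν) * a ^ 2) := by
    rw [integral_const_mul, integral_add (hik.mul_const b) (hikk.mul_const (a ^ 2)),
      integral_mul_const, integral_mul_const]
  rw [hb2, hb3] at hb1
  have hb0 : 0 ≤ b := integral_nonneg fun Z => sq_nonneg _
  nlinarith [mul_le_mul_of_nonneg_right hp hb0]

end Pool.Agent.H994.QS
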