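import Pool.Agent.H994.QS.Stm

set_option autoImplicit false

open MeasureTheory ProbabilityTheory Filter Topology Asymptotics
open scoped unitInterval ENNReal

namespace Pool.Agent.H994.QS

open Pool.Agent.H181.GW

namespace Sma

theorem NN_ge (j : ℕ) : (2 : ℝ) ^ (j + 5) ≤ (NN j : ℝ) := by
  have h1 : j + 5 ≤ 32 ^ (j + 1) := by
    induction j with
    | zero => norm_num
    | succ j ih =>
      calc j + 1 + 5 ≤ 32 ^ (j + 1) + 32 ^ (j + 1) := by
            have : 1 ≤ 32 ^ (j + 1) := Nat.one_le_pow _ _ (by norm_num)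
            omega
        _ ≤ 32 ^ (j + 1) * 32 := by omega
        _ = 32 ^ (j + 1 + 1) := (pow_succ _ _).symm
  have h2 : (2 : ℕ) ^ (j + 5) ≤ 2 ^ (32 ^ (j + 1)) := Nat.pow_le_pow_right (by norm_num) h1
  unfold NN
  exact_mod_cast h2

theorem NN_ge' (j : ℕ) : (32 : ℝ) ≤ (NN j : ℝ) := by
  have h1 := NN_ge j
  have h2 : (32 : ℝ) ≤ 2 ^ (j + 5) := by
    rw [pow_add]
    have : (1 : ℝ) ≤ 2 ^ j := one_le_pow₀ (by norm_num)
    linarith
  linarith

theorem quenched_nonneg (Z : Env) (p : I) : 0 ≤ quenched Z p := measureReal_nonneg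

theorem quenched_le_one (Z : Env) (p : I) : quenched Z p ≤ 1 := measureReal_le_one

theorem integrable_quenched (hm : S_meas) (μ : Measure ℕ) [IsProbabilityMeasure μ] (p : I) :
    Integrable (fun Z : Env => quenched Z p) (GWlaw μ) := by
  refine (integrable_const (1 : ℝ)).mono' (hm p).aestronglyMeasurable ?_
  refine Filter.Eventually.of_forall fun Z => ?_
  rw [Real.norm_eq_abs, abs_of_nonneg (quenched_nonneg Z p)]
  exact quenched_le_one Z p

theorem mm_le (j : ℕ) : mm j ≤ 3 := by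
  unfold mm
  have : (0 : ℝ) < (1 / 2) ^ (j + 1) := by positivity
  linarith

theorem mm_ge (j : ℕ) : 2 ≤ mm j := by
  unfold mm
  have : ((1 : ℝ) / 2) ^ (j + 1) ≤ 1 := pow_le_one₀ (by norm_num) (by norm_num)
  linarith

end Sma

open Sma

theorem t_small (hm : S_meas) (hu : S_upper) : S_small := by
  intro μ hμ j p hp
  have := hμ.prob
  set N : ℝ := (NN j : ℝ) with hN
  have hN32 : (32 : ℝ) ≤ N := NN_ge' j
  have hNpos : 0 < N := by linarith
  have hmm1 := mm_le j
  have hmm2 := mm_ge j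
  have hmmpos : 0 < mm j := by linarith
  have hp3 : (1 / 3 : ℝ) ≤ p := by
    rw [hp]
    exact one_div_le_one_div_of_le hmmpos hmm1
  -- the bound for the annealed function
  have h1 := hu μ (NN j) hμ.two_le p (by
    rw [hμ.trunc j, hp, one_div, inv_mul_cancel₀ hmmpos.ne'])
  have htail := hμ.tail j
  have hset : {k : ℕ | k ≤ NN j} = {k : ℕ | NN j < k}ᶜ := by
    ext k
    simp
  have hcomp : μ.real {k : ℕ | k ≤ NN j} = 1 - μ.real {k : ℕ | NN j < k} := by
    rw [hset, probReal_compl_eq_one_sub (Set.to_countable _).measurableSet]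
  have hN1 : (1 : ℝ) / N ^ 32 ≤ 1 / 2 := by
    apply one_div_le_one_div_of_le (by norm_num)
    calc (2 : ℝ) ≤ N := by linarith
      _ = N ^ 1 := (pow_one N).symm
      _ ≤ N ^ 32 := pow_le_pow_right₀ (by linarith) (by norm_num)
  have hhalf : (1 / 2 : ℝ) ≤ μ.real {k : ℕ | k ≤ NN j} := by
    rw [hcomp]
    linarith
  set g : ℝ := annealed μ p with hg
  have hg0 : 0 ≤ g := (annealed_mem p μ).1
  have h2 : g ^ 2 ≤ 18 / N ^ 32 := by
    have e1 : (1 / 9 : ℝ) ≤ (p : ℝ) ^ 2 := by nlinarith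
    have e2 : (1 / 18 : ℝ) * g ^ 2 ≤ (p : ℝ) ^ 2 * g ^ 2 * μ.real {k : ℕ | k ≤ NN j} := by
      calc (1 / 18 : ℝ) * g ^ 2 = (1 / 9 * g ^ 2) * (1 / 2) := by ring
        _ ≤ ((p : ℝ) ^ 2 * g ^ 2) * (1 / 2) := by
            have := mul_le_mul_of_nonneg_right e1 (sq_nonneg g)
            linarith
        _ ≤ ((p : ℝ) ^ 2 * g ^ 2) * μ.real {k : ℕ | k ≤ NN j} :=
            mul_le_mul_of_nonneg_left hhalf (by positivity)
    have e3 : (1 / 18 : ℝ) * g ^ 2 ≤ 1 / N ^ 32 := e2.trans (h1.trans htail)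
    have e4 : (18 : ℝ) / N ^ 32 = 18 * (1 / N ^ 32) := by ring
    rw [e4]
    linarith
  have h3 : g ≤ 5 / N ^ 16 := by
    apply le_of_sq_le_sq _ (by positivity) |> fun h => h
    rw [div_pow, ← pow_mul]
    norm_num
    refine h2.trans ?_
    apply div_le_div_of_nonneg_right (by norm_num) (by positivity)
  -- Markov
  have hv : vv j ^ 3 / 4 = 1 / (4 * N ^ 15) := by
    unfold vv
    rw [← hN]
    field_simp
  have h4 := mul_meas_ge_le_integral_of_nonneg (μ := GWlaw μ) (f := fun Z => quenched Z p)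
    (Filter.Eventually.of_forall fun Z => quenched_nonneg Z p) (integrable_quenched hm μ p)
    (vv j ^ 3 / 4)
  have h5 : ∫ Z, quenched Z p ∂(GWlaw μ) = g := rfl
  rw [h5] at h4
  have h6 : (GWlaw μ).real {Z | vv j ^ 3 / 4 < quenched Z p} ≤
      (GWlaw μ).real {Z | vv j ^ 3 / 4 ≤ quenched Z p} :=
    measureReal_mono (fun Z hZ => by
      simp only [Set.mem_ofPred_eq] at hZ ⊢
      exact hZ.le)
  refine h6.trans ?_
  set P : ℝ := (GWlaw μ).real {Z | vv j ^ 3 / 4 ≤ quenched Z p} with hP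
  have h7 : P ≤ 20 / N := by
    rw [hv] at h4
    have e1 : 1 / (4 * N ^ 15) * P ≤ 5 / N ^ 16 := h4.trans h3
    have e2 : P = (4 * N ^ 15) * (1 / (4 * N ^ 15) * P) := by
      field_simp
    rw [e2]
    calc (4 * N ^ 15) * (1 / (4 * N ^ 15) * P) ≤ (4 * N ^ 15) * (5 / N ^ 16) :=
          mul_le_mul_of_nonneg_left e1 (by positivity)
      _ = 20 / N := by field_simp; ring
  refine h7.trans ?_
  have h8 := NN_ge j
  rw [← hN] at h8
  calc 20 / N ≤ 20 / 2 ^ (j + 5) := div_le_div_of_nonneg_left (by norm_num) (by positivity) h8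
    _ ≤ (1 / 2) ^ j := by
        rw [div_le_iff₀ (by positivity), pow_add, ← mul_assoc, ← mul_pow]
        norm_num

end Pool.Agent.H994.QS
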