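import Pool.Graph.R_pool_sql_team_seeded_2aa45f1a.H181.GwA

/-!
# The quenched survival function of a Galton-Watson tree (MP_97806e_pr, Q2): statements

The model (`Env`, `Perc`, `InCluster`, `GWlaw`, `perc`, `quenched`, `annealed`, `sub`) is the one
of the library module `H181.GwA`; there one also finds `qe` (probability of extinction before
generation `n`), `qe_succ`, `quenched_eq`, `measurable_qe`, `treeLaw`, `subLaw`,
`annealed_fixed`, `annealed_max`.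
-/

set_option autoImplicit false

open MeasureTheory ProbabilityTheory Filter Topology Asymptotics
open scoped unitInterval ENNReal

namespace Pool.Agent.H994.QS

open Pool.Agent.H181.GW

/-- the support points `2 ^ (32 ^ (j + 1))`; `NN (j + 1) = NN j ^ 32` -/
def NN (j : ℕ) : ℕ := 2 ^ (32 ^ (j + 1))

/-- the means of the truncated laws -/
noncomputable def mm (j : ℕ) : ℝ := 3 - (1 / 2) ^ (j + 1)

/-- truncation: offspring numbers larger than `N` are replaced by `2` -/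
def TT (N k : ℕ) : ℕ := if k ≤ N then k else 2

/-- `1 / N ^ 5` -/
noncomputable def vv (j : ℕ) : ℝ := 1 / (NN j : ℝ) ^ 5

/-- the fixed point equation of the quenched survival function -/
def S_fix : Prop := ∀ (Z : Env) (p : I),
  quenched Z p = 1 - ∏ i ∈ Finset.range (Z []), (1 - (p : ℝ) * quenched (sub Z i) p)

/-- monotonicity in `p` -/
def S_monop : Prop := ∀ (Z : Env) (p q : I), p ≤ q → quenched Z p ≤ quenched Z q

/-- monotonicity in the tree -/
def S_monoZ : Prop := ∀ (Z Z' : Env), (∀ u, Z' u ≤ Z u) → ∀ p : I, quenched Z' p ≤ quenched Z p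

/-- measurability -/
def S_meas : Prop := ∀ p : I, Measurable fun Z : Env => quenched Z p

/-- second moment bound -/
def S_second : Prop := ∀ (ν : Measure ℕ) [IsProbabilityMeasure ν] (N : ℕ),
  (∀ᵐ k ∂ν, k ≤ N) → ∀ p : I, (p : ℝ) ^ 2 * ∫ k, (k : ℝ) ∂ν ≤ 1 / 2 →
    ∫ Z, (quenched Z p) ^ 2 ∂(GWlaw ν) ≤
      2 * (p : ℝ) ^ 2 * (∫ k, ((k : ℝ) * ((k : ℝ) - 1)) ∂ν) * (annealed ν p) ^ 2

/-- propagation through two generations, for trees in which every vertex has at least two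
children -/
def S_prop : Prop := ∀ (ν : Measure ℕ) [IsProbabilityMeasure ν], (∀ᵐ k ∂ν, 2 ≤ k) →
  ∀ (p : I) (s : ℝ),
    GWlaw ν {Z | quenched Z p < p * s} ≤ (GWlaw ν {Z | quenched Z p < s}) ^ 2

/-- lower bound for the annealed survival function of a bounded law -/
def S_lower : Prop := ∀ (ν : Measure ℕ) [IsProbabilityMeasure ν] (N : ℕ),
  (∀ᵐ k ∂ν, k ≤ N) → ∀ (p : I) (x : ℝ), 0 ≤ x → x ≤ 1 →
    (p : ℝ) ^ 2 * x * (N * ∫ k, (k : ℝ) ∂ν) / 2 ≤ (p : ℝ) * (∫ k, (k : ℝ) ∂ν) - 1 →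
      x ≤ annealed ν p

/-- upper bound for the annealed survival function where the truncated law is not
supercritical -/
def S_upper : Prop := ∀ (μ : Measure ℕ) [IsProbabilityMeasure μ] (N : ℕ),
  (∀ᵐ k ∂μ, 2 ≤ k) → ∀ p : I, (p : ℝ) * ∫ k, (TT N k : ℝ) ∂μ ≤ 1 →
    (p : ℝ) ^ 2 * (annealed μ p) ^ 2 * μ.real {k | k ≤ N} ≤ μ.real {k | N < k}

/-- the offspring law: all properties that are used -/
structure IsLaw (μ : Measure ℕ) : Prop where
  prob : IsProbabilityMeasure μ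
  two_le : ∀ᵐ k ∂μ, 2 ≤ k
  int : Integrable (fun k : ℕ => (k : ℝ)) μ
  mean : ∫ k, (k : ℝ) ∂μ = 3
  trunc : ∀ j, ∫ k, (TT (NN j) k : ℝ) ∂μ = mm j
  tail : ∀ j, μ.real {k | NN j < k} ≤ 1 / (NN j : ℝ) ^ 32

/-- existence of the offspring law: mass `2 ^ (-(j + 1)) / (NN j - 2)` at `NN j` and the rest
at `2` -/
def S_law : Prop := ∃ μ : Measure ℕ, IsLaw μ

/-- lower bound for the survival function just above `1 / mm j`, with large probability -/
def S_big : Prop := ∀ μ : Measure ℕ, IsLaw μ → ∀ (j : ℕ) (p : I),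
  (p : ℝ) = 1 / mm j + vv j ^ 2 → (GWlaw μ).real {Z | quenched Z p < vv j ^ 3} ≤ (1 / 2) ^ j

/-- upper bound at `1 / mm j`, with large probability -/
def S_small : Prop := ∀ μ : Measure ℕ, IsLaw μ → ∀ (j : ℕ) (p : I),
  (p : ℝ) = 1 / mm j → (GWlaw μ).real {Z | vv j ^ 3 / 4 < quenched Z p} ≤ (1 / 2) ^ j

/-- A nonnegative function which is tiny at `x j` but at least `v j ^ 3` at `x j + v j ^ 2`, for
points `x j ↓ 1/3`, is not of class `C²` at `(1/3)⁺`. -/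
def S_notC2 : Prop := ∀ (f : ℝ → ℝ) (x v : ℕ → ℝ), (∀ y, 0 ≤ f y) → (∀ j, 0 < v j) →
  (∀ j, 1 / 3 < x j - v j ^ 2) → Tendsto x atTop (𝓝 (1 / 3)) → Tendsto v atTop (𝓝 0) →
  (∀ᶠ j in atTop, f (x j) ≤ v j ^ 3 / 4 ∧ v j ^ 3 ≤ f (x j + v j ^ 2)) →
    ∀ δ : ℝ, 0 < δ → ¬ ContDiffOn ℝ 2 f (Set.Ico (1 / 3) (1 / 3 + δ))

/-- A nonnegative monotone function with `f (1 / mm j) ≤ vv j ^ 3 / 4` for all large `j`
vanishes to infinite order at `(1/3)⁺`. -/
def S_flat : Prop := ∀ f : ℝ → ℝ, (∀ y, 0 ≤ f y) → Monotone f →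
  (∀ᶠ j in atTop, f (1 / mm j) ≤ vv j ^ 3 / 4) →
    ∀ k : ℕ, (fun ε : ℝ => f (1 / 3 + ε)) =o[𝓝[>] 0] fun ε : ℝ => ε ^ k

end Pool.Agent.H994.QS
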