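import Pool.Agent.H994.QS.Stm

set_option autoImplicit false

open MeasureTheory ProbabilityTheory Filter Topology Asymptotics
open scoped unitInterval ENNReal

namespace Pool.Agent.H994.QS

open Pool.Agent.H181.GW

namespace Upp

lemma pow_lower {x : ℝ} (hx0 : 0 ≤ x) (hx1 : x ≤ 1) (k : ℕ) (hk : 2 ≤ k) :
    1 - (k : ℝ) * x + x ^ 2 ≤ (1 - x) ^ k := by
  induction k, hk using Nat.le_induction with
  | base => push_cast; nlinarith
  | succ k hk ih =>
    have h1 : (1 - x) * (1 - (k : ℝ) * x + x ^ 2) ≤ (1 - x) ^ (k + 1) := by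
      rw [pow_succ, mul_comm]
      exact mul_le_mul_of_nonneg_right ih (by linarith)
    refine le_trans ?_ h1
    have hk' : (2 : ℝ) ≤ k := by exact_mod_cast hk
    push_cast
    nlinarith [mul_nonneg (mul_nonneg hx0 hx0) (by linarith : (0:ℝ) ≤ (k : ℝ) - x)]

lemma ptwise {x : ℝ} (hx0 : 0 ≤ x) (hx1 : x ≤ 1) (N k : ℕ) (hk : 2 ≤ k) :
    1 - (1 - x) ^ k ≤ (TT N k : ℝ) * x - x ^ 2 * Set.indicator {k | k ≤ N} (fun _ => (1 : ℝ)) k
      + Set.indicator {k | N < k} (fun _ => (1 : ℝ)) k := by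
  by_cases h : k ≤ N
  · have h2 : ¬ N < k := not_lt.mpr h
    simp only [TT, h, if_true, Set.indicator, Set.mem_setOf_eq, h2, if_false]
    linarith [pow_lower hx0 hx1 k hk]
  · have h2 : N < k := not_le.mp h
    simp only [TT, h, if_false, Set.indicator, Set.mem_setOf_eq, h2, if_true]
    have : 0 ≤ (1 - x) ^ k := pow_nonneg (by linarith) k
    push_cast
    linarith

end Upp

open Upp in
theorem t_upper : S_upper := by
  intro μ _ N h2 p hp
  have hp0 : (0 : ℝ) ≤ p := p.2.1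
  have hp1 : (p : ℝ) ≤ 1 := p.2.2
  obtain ⟨hg0, hg1⟩ := annealed_mem p μ
  have hfix := annealed_fixed p μ
  set g := annealed μ p with hg
  set x : ℝ := p * g with hx
  have hx0 : 0 ≤ x := mul_nonneg hp0 hg0
  have hx1 : x ≤ 1 := mul_le_one₀ hp1 hg0 hg1
  have hmeas : ∀ f : ℕ → ℝ, AEStronglyMeasurable f μ := fun f =>
    (Measurable.of_discrete (f := f)).aestronglyMeasurable
  have hIpow : Integrable (fun k : ℕ => (1 - x) ^ k) μ := by
    refine Integrable.of_bound (hmeas _) 1 (ae_of_all _ fun k => ?_)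
    rw [Real.norm_eq_abs, abs_of_nonneg (pow_nonneg (by linarith) k)]
    exact pow_le_one₀ (by linarith) (by linarith)
  have hIT : Integrable (fun k : ℕ => (TT N k : ℝ)) μ := by
    refine Integrable.of_bound (hmeas _) (max N 2 : ℕ) (ae_of_all _ fun k => ?_)
    rw [Real.norm_eq_abs, abs_of_nonneg (Nat.cast_nonneg _)]
    have : TT N k ≤ max N 2 := by
      unfold TT
      split_ifs with h
      · exact le_trans h (le_max_left _ _)
      · exact le_max_right _ _
    exact_mod_cast this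
  have hA : MeasurableSet {k : ℕ | k ≤ N} := MeasurableSet.of_discrete
  have hB : MeasurableSet {k : ℕ | N < k} := MeasurableSet.of_discrete
  have hIA : Integrable (Set.indicator {k : ℕ | k ≤ N} (fun _ => (1 : ℝ))) μ :=
    (integrable_const (1 : ℝ)).indicator hA
  have hIB : Integrable (Set.indicator {k : ℕ | N < k} (fun _ => (1 : ℝ))) μ :=
    (integrable_const (1 : ℝ)).indicator hB
  have hL : g = ∫ k, (1 - (1 - x) ^ k) ∂μ := by
    rw [integral_sub (integrable_const _) hIpow]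
    simpa using hfix
  have hR : ∫ k, (1 - (1 - x) ^ k) ∂μ ≤
      ∫ k, ((TT N k : ℝ) * x - x ^ 2 * Set.indicator {k | k ≤ N} (fun _ => (1 : ℝ)) k
      + Set.indicator {k | N < k} (fun _ => (1 : ℝ)) k) ∂μ := by
    refine integral_mono_ae ((integrable_const _).sub hIpow)
      (((hIT.mul_const x).sub (hIA.const_mul (x ^ 2))).add hIB) ?_
    filter_upwards [h2] with k hk
    exact ptwise hx0 hx1 N k hk
  have hI1 : Integrable (fun k : ℕ => (TT N k : ℝ) * x) μ := hIT.mul_const x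
  have hI2 : Integrable (fun k : ℕ => x ^ 2 * Set.indicator {k | k ≤ N} (fun _ => (1 : ℝ)) k) μ :=
    hIA.const_mul (x ^ 2)
  have hE : ∫ k, ((TT N k : ℝ) * x - x ^ 2 * Set.indicator {k | k ≤ N} (fun _ => (1 : ℝ)) k
      + Set.indicator {k | N < k} (fun _ => (1 : ℝ)) k) ∂μ
      = (∫ k, (TT N k : ℝ) ∂μ) * x - x ^ 2 * μ.real {k | k ≤ N} + μ.real {k | N < k} := by
    have e1 : ∫ k, ((TT N k : ℝ) * x - x ^ 2 * Set.indicator {k | k ≤ N} (fun _ => (1 : ℝ)) k
      + Set.indicator {k | N < k} (fun _ => (1 : ℝ)) k) ∂μ =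
      ∫ k, ((TT N k : ℝ) * x - x ^ 2 * Set.indicator {k | k ≤ N} (fun _ => (1 : ℝ)) k) ∂μ
       + ∫ k, Set.indicator {k | N < k} (fun _ => (1 : ℝ)) k ∂μ :=
      integral_add (hI1.sub hI2) hIB
    have e2 : ∫ k, ((TT N k : ℝ) * x - x ^ 2 * Set.indicator {k | k ≤ N} (fun _ => (1 : ℝ)) k) ∂μ
      = ∫ k, (TT N k : ℝ) * x ∂μ - ∫ k, x ^ 2 * Set.indicator {k | k ≤ N} (fun _ => (1 : ℝ)) k ∂μ :=
      integral_sub hI1 hI2
    rw [e1, e2, integral_mul_const, integral_const_mul, integral_indicator hA,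
      integral_indicator hB]
    simp [measureReal_def]
  have hfin : (∫ k, (TT N k : ℝ) ∂μ) * x ≤ g := by
    have : (∫ k, (TT N k : ℝ) ∂μ) * x = ((p : ℝ) * ∫ k, (TT N k : ℝ) ∂μ) * g := by
      rw [hx]; ring
    rw [this]
    exact mul_le_of_le_one_left hg0 hp
  have hxx : (p : ℝ) ^ 2 * g ^ 2 = x ^ 2 := by rw [hx]; ring
  rw [hxx]
  rw [hE] at hR
  linarith

end Pool.Agent.H994.QS
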